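import Pool.Agent.H68.IW.Df
import Pool.Agent.H11.MW
import Pool.Agent.H11.Desc

/-!
Row Ba (about 80 lines): finiteness and representatives. Use the STATEMENTS weak_mordell_weil' (H11/MW), sha_finite_torsion (H11/Desc), Sha.mk_surjective, Sha.mk_eq_zero, Sha.mk_nsmul (H10/Func7).

PROOF. `V.IsElliptic` from `hΔ` (isUnit_iff_ne_zero).
finite_q: weak_mordell_weil' V l gives FiniteIndex of the range of `nsmulAddMonoidHom l` for `V.baseChange K` (= `V.map (algebraMap K K)`), which has the same points as `V` (`V.map (RingHom.id K) = V`, WeierstrassCurve.map_id; see mordell_weil in H11/MW.lean and fg_of_two_finiteIndex there; DecidableEq instances: `Subsingleton.elim`). Finite quotient from FiniteIndex.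
finite_t: `Tl l (Sha L V)` is the kernel of multiplication by `l`, its elements are in the finite set of sha_finite_torsion (Set.Finite.to_subtype, Finite.of_injective).
exists_P: `P` := the image of `Quotient.out` on the finite type `Ql l _` (Fintype.ofFinite, Finset.univ.image): cardinality at most `Nat.card (Ql l _)` (Finset.card_image_le, Nat.card_eq_fintype_card); for `X`, `p := (mk X).out`, `X - p` is in the range (QuotientAddGroup.eq, out_eq').
exists_T: `T'` := the image of the finite type `Tl l (Sha L V)` under a section `s` of `Sha.mk` (`s x : ShaZ L V`, coerced to Coch L V). For `f` as in the statement `x := Sha.mk ⟨f, _⟩`, `l • x = Sha.mk (l • f) = 0`, and `Sha.mk ⟨f, _⟩ = Sha.mk (s x)` gives IsCobound of the difference (Sha.mk_eq_zero).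
-/

set_option autoImplicit false
open scoped Classical

open WeierstrassCurve IsDedekindDomain NumberField Pool.Agent.H10 Pool.Agent.H11 H78D

namespace H86I

theorem finite_q {L : Type} [Field L] [NumberField L] {V : WeierstrassCurve L} (hΔ : V.Δ ≠ 0)
    {l : ℕ} (hl : l ≠ 0) : Finite (H68IW.Ql l V.toAffine.Point) := by
  haveI : V.IsElliptic := ⟨isUnit_iff_ne_zero.2 hΔ⟩
  haveI h : (nsmulAddMonoidHom (α := V.toAffine.Point) l).range.FiniteIndex :=
    weak_mordell_weil' V l hl
  exact AddSubgroup.finite_quotient_of_finiteIndex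

theorem finite_t {L : Type} [Field L] [NumberField L] {V : WeierstrassCurve L} (hΔ : V.Δ ≠ 0)
    {l : ℕ} (hl : l ≠ 0) : Finite (H68IW.Tl l (Sha L V)) := by
  haveI : V.IsElliptic := ⟨isUnit_iff_ne_zero.2 hΔ⟩
  haveI h : Finite {x : Sha L V | l • x = 0} := (sha_finite_torsion V l hl).to_subtype
  refine Finite.of_injective (β := {x : Sha L V | l • x = 0}) (fun x => ⟨x.1, x.2⟩) ?_
  intro x y hxy
  exact Subtype.ext (congrArg (fun z : {x : Sha L V | l • x = 0} => (z : Sha L V)) hxy)

theorem exists_P {L : Type} [Field L] [NumberField L] {V : WeierstrassCurve L} (hΔ : V.Δ ≠ 0)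
    {l : ℕ} (hl : l ≠ 0) : ∃ P : Finset V.toAffine.Point,
      P.card ≤ Nat.card (H68IW.Ql l V.toAffine.Point) ∧
      ∀ X : V.toAffine.Point, ∃ p ∈ P, ∃ S, X = p + l • S := by
  haveI := finite_q hΔ hl
  haveI := Fintype.ofFinite (H68IW.Ql l V.toAffine.Point)
  refine ⟨Finset.univ.image (fun x : H68IW.Ql l V.toAffine.Point => x.out), ?_, ?_⟩
  · refine Finset.card_image_le.trans (le_of_eq ?_)
    rw [Finset.card_univ, Nat.card_eq_fintype_card]
  · intro X
    refine ⟨(QuotientAddGroup.mk X : H68IW.Ql l V.toAffine.Point).out,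
      Finset.mem_image_of_mem _ (Finset.mem_univ _), ?_⟩
    have h1 : (QuotientAddGroup.mk ((QuotientAddGroup.mk X : H68IW.Ql l V.toAffine.Point).out) :
        H68IW.Ql l V.toAffine.Point) = QuotientAddGroup.mk X := QuotientAddGroup.out_eq' _
    rw [QuotientAddGroup.eq] at h1
    obtain ⟨S, hS⟩ := h1
    refine ⟨S, ?_⟩
    have h2 : l • S = -(QuotientAddGroup.mk X : H68IW.Ql l V.toAffine.Point).out + X := hS
    rw [h2, add_neg_cancel_left]

theorem exists_T {L : Type} [Field L] [NumberField L] {V : WeierstrassCurve L} (hΔ : V.Δ ≠ 0)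
    {l : ℕ} (hl : l ≠ 0) : ∃ T' : Finset (Coch L V),
      T'.card ≤ Nat.card (H68IW.Tl l (Sha L V)) ∧
      ∀ f, IsCocycle L V f → IsLocTriv L V f → IsCobound L V (fun σ => l • f σ) →
        ∃ t ∈ T', IsCobound L V (fun σ => f σ - t σ) := by
  haveI := finite_t hΔ hl
  haveI := Fintype.ofFinite (H68IW.Tl l (Sha L V))
  obtain ⟨s, hs⟩ := (Sha.mk_surjective (K := L) (V := V)).hasRightInverse
  refine ⟨Finset.univ.image (fun x : H68IW.Tl l (Sha L V) => ((s x.1 : ShaZ L V) : Coch L V)), ?_, ?_⟩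
  · refine Finset.card_image_le.trans (le_of_eq ?_)
    rw [Finset.card_univ, Nat.card_eq_fintype_card]
  · intro f hf hf' hlf
    obtain ⟨F, hF⟩ : ∃ F : ShaZ L V, F = ⟨f, hf, hf'⟩ := ⟨_, rfl⟩
    have h1 : l • Sha.mk F = 0 := by
      rw [← Sha.mk_nsmul, Sha.mk_eq_zero, hF]
      exact hlf
    refine ⟨((s (Sha.mk F) : ShaZ L V) : Coch L V), Finset.mem_image.2
      ⟨⟨Sha.mk F, h1⟩, Finset.mem_univ _, rfl⟩, ?_⟩
    have h2 : Sha.mk (F - s (Sha.mk F)) = 0 := by
      have h3 : Sha.mk (F - s (Sha.mk F)) = Sha.mk F - Sha.mk (s (Sha.mk F)) := rfl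
      rw [h3, hs, sub_self]
    rw [Sha.mk_eq_zero, hF] at h2
    rw [hF]
    exact h2

end H86I
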