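import Pool.Agent.H68.IW.In
import Pool.Agent.H68.TM.Decl
import Pool.Agent.H68.TM.Gal

/-!
Row Fb (about 60 lines): layers are cyclic over intermediate fields of `p`-power degree. Use only the STATEMENTS of H68/TM/Decl (decompose_l) and H68/TM/Gal (galL, exists_gen).

PROOF. `Lay p k L`: `L'`, `h`, `IsR p L'`, generation. decompose_l gives `K'`, `Algebra K' L'`, `C : Comp k K' L' K L`, `finrank K' L' = finrank K L = p ^ j`. galL C hL: IsGalois. exists_gen C: all automorphisms are powers of one, IsCyclic (`⟨⟨h, fun g => ...⟩⟩`).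
-/

set_option autoImplicit false
open scoped Classical

open WeierstrassCurve IsDedekindDomain NumberField H5SW H68TM H68QS

namespace H86I

theorem lay_gal {p : ℕ} [Fact p.Prime] (hp2 : p ≠ 2) {k K L : Type} [Field k] [NumberField k]
    [Field K] [NumberField K] [Field L] [NumberField L] [Algebra k K] [Algebra k L] [Algebra K L]
    [IsScalarTower k K L] (h : H68IW.Lay p k L) {j : ℕ} (hj : Module.finrank K L = p ^ j) :
    IsGalois K L ∧ IsCyclic (L ≃ₐ[K] L) := by
  obtain ⟨L', _, _, f, hR, hgen⟩ := h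
  obtain ⟨K', _, _, _, ⟨C, hC⟩, hd, -⟩ := decompose_l (K := K) f hR hgen
  refine ⟨(galL C hR (hd.trans hj)).1, ?_⟩
  obtain ⟨g, hg⟩ := exists_gen C hp2 hR
  refine ⟨⟨g, fun x => ?_⟩⟩
  obtain ⟨n, rfl⟩ := hg x
  exact ⟨(n : ℤ), by simp⟩

end H86I
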