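import Pool.Agent.H68.IW.Ab

/-!
Row Fa (about 120 lines): almost free actions of cyclic `p`-groups. Use the lemmas Ab_comm, Ab_card and the proof of free_card in Pool/Agent/H68/IW/Ab.lean as a model.

PROOF of free_gen. `B := (nrm (ρ.comp ι)).ker`, finite, stable under `G` (as in free_card). `G` acts on `X := {b : B // b ≠ 0}` (the same MulAction as in free_card). Let `b ∈ X` with stabiliser `S`. Claim: `Nat.card S ∣ p ^ (s - 1)`. `Nat.card S = p ^ i` (it divides `p ^ j`). If `i ≥ s`, then `S` contains `ι.range`: both are subgroups of the cyclic group `G`, `Nat.card ι.range = p ^ s` (`ι` injective) divides `Nat.card S`; `IsCyclic.card_pow_eq_one_le`: at most `Nat.card S` elements satisfy `x ^ (Nat.card S) = 1`, the elements of `S` are `Nat.card S` such elements, so they are all of them, and every `ι h` satisfies `(ι h) ^ (p ^ s) = 1`, so `(ι h) ^ (Nat.card S) = 1`, `ι h ∈ S` (compare Ab_uni). So all `ι h` fix `b`, `0 = ∑ h, ρ (ι h) b = p ^ s • b`, `l • b =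 0`: `b = 0` (coprime orders, as at the end of Ab_fix), contradiction. So `i ≤ s - 1`.
 So every orbit has `p ^ j / p ^ i` elements, a multiple of `p ^ (j - s + 1)` (`s ≤ j` because `p ^ s ∣ p ^ j`), and `Nat.card X` is the sum over the orbits (MulAction.card_eq_sum_card_group_div_card_stabilizer, or selfEquivSigmaOrbitsQuotientStabilizer with Nat.card_sigma; Finset.dvd_sum). `Nat.card X = Nat.card B - 1` (Ab_card).
PROOF of free_gen_q, free_gen_t: as free_q, free_t in Ab.lean, from free_gen.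
-/

set_option autoImplicit false
open scoped Classical

open H68IW

namespace H86I

/-- The stabilisers have small order. -/
theorem Fa_stab {A G H : Type} [AddCommGroup A] [Group G] [Finite G] [IsCyclic G] [Group H]
    [Fintype H] {l p j s : ℕ} (hl : l.Prime) (hp : p.Prime) (hlp : l ≠ p)
    (hG : Nat.card G = p ^ j) (hH : Fintype.card H = p ^ s) (ι : H →* G)
    (ρ : G →* AddMonoid.End A) {b : A} (hb : l • b = 0) (hb0 : b ≠ 0)
    (hs : ∑ h, ρ (ι h) b = 0) (S : Subgroup G) (hS : ∀ g ∈ S, ρ g b = b) :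
    ∃ i, Nat.card S = p ^ i ∧ i < s := by
  obtain ⟨i, _, hi⟩ := (Nat.dvd_prime_pow hp).1 (hG ▸ Subgroup.card_subgroup_dvd_card S)
  refine ⟨i, hi, ?_⟩
  by_contra hlt
  have hle : s ≤ i := not_lt.1 hlt
  haveI := Fintype.ofFinite G
  have hpos : 0 < p ^ i := pow_pos hp.pos i
  have h1 : (Finset.univ.filter fun a : G => a ^ p ^ i = 1).card ≤ p ^ i :=
    IsCyclic.card_pow_eq_one_le hpos
  have h2 : (Finset.univ.filter fun a : G => a ∈ S).card = p ^ i := by
    rw [← Fintype.card_subtype, ← Nat.card_eq_fintype_card]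
    exact hi
  have h3 : (Finset.univ.filter fun a : G => a ∈ S) ⊆
      (Finset.univ.filter fun a : G => a ^ p ^ i = 1) := by
    intro a ha
    rw [Finset.mem_filter] at ha ⊢
    refine ⟨Finset.mem_univ _, ?_⟩
    have h4 : (⟨a, ha.2⟩ : S) ^ Nat.card S = 1 := pow_card_eq_one'
    rw [hi] at h4
    exact congrArg Subtype.val h4
  have h4 := Finset.eq_of_subset_of_card_le h3 (h1.trans h2.ge)
  have h5 : ∀ h : H, ι h ∈ S := by
    intro h
    have h6 : ι h ∈ (Finset.univ.filter fun a : G => a ^ p ^ i = 1) := by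
      rw [Finset.mem_filter]
      refine ⟨Finset.mem_univ _, ?_⟩
      obtain ⟨t, rfl⟩ := Nat.exists_eq_add_of_le hle
      rw [← map_pow, pow_add, pow_mul, ← hH, pow_card_eq_one, one_pow, map_one]
    rw [← h4, Finset.mem_filter] at h6
    exact h6.2
  have h7 : ∀ h : H, ρ (ι h) b = b := fun h => hS _ (h5 h)
  simp only [h7] at hs
  rw [Finset.sum_const, Finset.card_univ, hH] at hs
  have h8 : addOrderOf b ∣ l := addOrderOf_dvd_of_nsmul_eq_zero hb
  have h9 : addOrderOf b ∣ p ^ s := addOrderOf_dvd_of_nsmul_eq_zero hs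
  have h10 : Nat.Coprime l (p ^ s) := Nat.Coprime.pow_right _ ((Nat.coprime_primes hl hp).2 hlp)
  exact hb0 (AddMonoid.addOrderOf_eq_one_iff.1 (Nat.eq_one_of_dvd_coprimes h10 h8 h9))

theorem free_gen {A G H : Type} [AddCommGroup A] [Group G] [Finite G] [IsCyclic G] [Group H]
    [Fintype H] {l p j s : ℕ} (hl : l.Prime) (hp : p.Prime) (hlp : l ≠ p)
    (hG : Nat.card G = p ^ j) (hH : Fintype.card H = p ^ s) (hs : 1 ≤ s) (ι : H →* G)
    (hι : Function.Injective ι) (ρ : G →* AddMonoid.End A) (hA : ∀ a : A, l • a = 0)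
    (hfin : Finite (nrm (ρ.comp ι)).ker) :
    p ^ (j - s + 1) ∣ Nat.card (nrm (ρ.comp ι)).ker - 1 := by
  have hmem : ∀ b : A, b ∈ (nrm (ρ.comp ι)).ker ↔ ∑ h, ρ (ι h) b = 0 := by
    intro b
    rw [AddMonoidHom.mem_ker, nrm_apply]
    rfl
  have hst : ∀ (g : G) (b : A), b ∈ (nrm (ρ.comp ι)).ker → ρ g b ∈ (nrm (ρ.comp ι)).ker := by
    intro g b hb
    rw [hmem] at hb ⊢
    have h1 : ∀ h, ρ (ι h) (ρ g b) = ρ g (ρ (ι h) b) := fun h => by
      change (ρ (ι h) * ρ g) b = (ρ g * ρ (ι h)) b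
      rw [← map_mul, ← map_mul, Ab_comm]
    simp only [h1]
    rw [← map_sum, hb, map_zero]
  have hinv : ∀ (g : G) (b : A), ρ g⁻¹ (ρ g b) = b := by
    intro g b
    change (ρ g⁻¹ * ρ g) b = b
    rw [← map_mul, inv_mul_cancel, map_one]
    rfl
  letI act : MulAction G {b : (nrm (ρ.comp ι)).ker // b ≠ 0} :=
    { smul := fun g x => ⟨⟨ρ g x.1.1, hst g _ x.1.2⟩, fun h => x.2 (by
        have h1 : ρ g x.1.1 = 0 := congrArg Subtype.val h
        have h2 := hinv g x.1.1
        rw [h1, map_zero] at h2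
        exact Subtype.ext h2.symm)⟩
      one_smul := by
        intro x
        apply Subtype.ext
        apply Subtype.ext
        change ρ 1 x.1.1 = x.1.1
        rw [map_one]
        rfl
      mul_smul := by
        intro g g' x
        apply Subtype.ext
        apply Subtype.ext
        change ρ (g * g') x.1.1 = ρ g (ρ g' x.1.1)
        rw [map_mul]
        rfl }
  have hsj : s ≤ j := by
    have h1 : Nat.card H ∣ Nat.card G := Subgroup.card_dvd_of_injective ι hι
    rw [hG, Nat.card_eq_fintype_card, hH] at h1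
    exact (Nat.pow_dvd_pow_iff_le_right hp.one_lt).1 h1
  have key : ∀ x : {b : (nrm (ρ.comp ι)).ker // b ≠ 0},
      p ^ (j - s + 1) ∣ Nat.card (G ⧸ MulAction.stabilizer G x) := by
    intro x
    have hx0 : x.1.1 ≠ 0 := fun h => x.2 (Subtype.ext h)
    obtain ⟨i, hi, his⟩ := Fa_stab hl hp hlp hG hH ι ρ (hA x.1.1) hx0 ((hmem _).1 x.1.2)
      (MulAction.stabilizer G x) (fun g hg =>
        congrArg (fun y : {b : (nrm (ρ.comp ι)).ker // b ≠ 0} => y.1.1)
          (MulAction.mem_stabilizer_iff.1 hg))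
    have h1 := Subgroup.card_eq_card_quotient_mul_card_subgroup (MulAction.stabilizer G x)
    rw [hG, hi] at h1
    have h2 : Nat.card (G ⧸ MulAction.stabilizer G x) = p ^ (j - i) := by
      apply Nat.eq_of_mul_eq_mul_right (pow_pos hp.pos i)
      rw [← h1, ← pow_add, Nat.sub_add_cancel (by omega)]
    rw [h2]
    exact pow_dvd_pow p (by omega)
  rw [← Ab_card, Nat.card_congr (MulAction.selfEquivSigmaOrbitsQuotientStabilizer G
    {b : (nrm (ρ.comp ι)).ker // b ≠ 0})]
  haveI : Fintype (MulAction.orbitRel.Quotient G {b : (nrm (ρ.comp ι)).ker // b ≠ 0}) :=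
    Fintype.ofFinite _
  rw [Nat.card_sigma]
  exact Finset.dvd_sum fun ω _ => key _

theorem free_gen_q {A G H : Type} [AddCommGroup A] [Group G] [Finite G] [IsCyclic G] [Group H]
    [Fintype H] {l p j s : ℕ} (hl : l.Prime) (hp : p.Prime) (hlp : l ≠ p)
    (hG : Nat.card G = p ^ j) (hH : Fintype.card H = p ^ s) (hs : 1 ≤ s) (ι : H →* G)
    (hι : Function.Injective ι) (ρ : G →* AddMonoid.End A) (ρ' : H →* AddMonoid.End A)
    (hρ : ∀ h a, ρ' h a = ρ (ι h) a) (hfin : Finite (nrm (qA l ρ')).ker) :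
    p ^ (j - s + 1) ∣ Nat.card (nrm (qA l ρ')).ker - 1 := by
  have h1 : ρ' = ρ.comp ι := MonoidHom.ext fun h => AddMonoidHom.ext fun a => hρ h a
  subst h1
  refine free_gen hl hp hlp hG hH hs ι hι (qA l ρ) ?_ hfin
  intro a
  obtain ⟨a, rfl⟩ := QuotientAddGroup.mk'_surjective _ a
  rw [← map_nsmul, QuotientAddGroup.mk'_apply, QuotientAddGroup.eq_zero_iff]
  exact ⟨a, rfl⟩

theorem free_gen_t {A G H : Type} [AddCommGroup A] [Group G] [Finite G] [IsCyclic G] [Group H]
    [Fintype H] {l p j s : ℕ} (hl : l.Prime) (hp : p.Prime) (hlp : l ≠ p)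
    (hG : Nat.card G = p ^ j) (hH : Fintype.card H = p ^ s) (hs : 1 ≤ s) (ι : H →* G)
    (hι : Function.Injective ι) (ρ : G →* AddMonoid.End A) (ρ' : H →* AddMonoid.End A)
    (hρ : ∀ h a, ρ' h a = ρ (ι h) a) (hfin : Finite (nrm (tA l ρ')).ker) :
    p ^ (j - s + 1) ∣ Nat.card (nrm (tA l ρ')).ker - 1 := by
  have h1 : ρ' = ρ.comp ι := MonoidHom.ext fun h => AddMonoidHom.ext fun a => hρ h a
  subst h1
  refine free_gen hl hp hlp hG hH hs ι hι (tA l ρ) ?_ hfin
  intro a
  exact Subtype.ext a.2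

end H86I
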