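import Pool.Agent.H68.IW.Df
import Pool.Agent.H11.ConjSha

/-!
Row Fc (about 60 lines): the actions of the Galois groups over two base fields agree.

PROOF of pA_res: `pA hV σ` and `pA hV0 (σ.restrictScalars K0)` are both `pm` along the ring homomorphism `σ` (unfold H68IW.pA, H86G.gp; rfl or pm_congr).
PROOF of actH_res: the proof of actS_tower in Pool/Agent/H11/Desc.lean: `actH hV σ x = conjS hV (lf σ) x = conjS hV0 ((lf σ).restrictScalars K0) x` (on cocycles by rfl: Sha.mk_surjective), and conjS_congr: both `(lf σ).restrictScalars K0` and `lf (σ.restrictScalars K0)` extend `σ` (lf_apply).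
-/

set_option autoImplicit false
open scoped Classical

open WeierstrassCurve IsDedekindDomain NumberField Pool.Agent.H10 Pool.Agent.H11 H78D

namespace H86I

variable {K0 K L : Type} [Field K0] [NumberField K0] [Field K] [NumberField K] [Field L]
  [NumberField L] [Algebra K0 K] [Algebra K0 L] [Algebra K L] [IsScalarTower K0 K L]
  {V0 : WeierstrassCurve K0} {V : WeierstrassCurve K} {V' : WeierstrassCurve L}

omit [NumberField K0] [NumberField K] [NumberField L] in
theorem Fc_tower : IsScalarTower K0 K (AlgebraicClosure L) := by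
  apply IsScalarTower.of_algebraMap_eq
  intro x
  rw [IsScalarTower.algebraMap_apply K0 L (AlgebraicClosure L),
    IsScalarTower.algebraMap_apply K0 K L, ← IsScalarTower.algebraMap_apply K L (AlgebraicClosure L)]

theorem pA_res (hV : V.map (algebraMap K L) = V') (hV0 : V0.map (algebraMap K0 L) = V')
    (σ : L ≃ₐ[K] L) (P : V'.toAffine.Point) :
    H68IW.pA hV σ P = H68IW.pA hV0 (σ.restrictScalars K0) P := by
  change pm (σ : L →+* L) _ P = pm ((σ.restrictScalars K0 : L ≃ₐ[K0] L) : L →+* L) _ P
  exact pm_congr _ _ (fun x => rfl) P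

theorem actH_res [Normal K0 L] [Normal K L] (hV : V.map (algebraMap K L) = V')
    (hV0 : V0.map (algebraMap K0 L) = V') (σ : L ≃ₐ[K] L) (x : Sha L V') :
    actH hV σ x = actH hV0 (σ.restrictScalars K0) x := by
  change actS hV σ x = actS hV0 (σ.restrictScalars K0) x
  unfold actS
  haveI : IsScalarTower K0 K (AlgebraicClosure L) := Fc_tower
  have h1 : conjS hV (lf σ) x = conjS hV0 ((lf σ).restrictScalars K0) x := by
    obtain ⟨f, rfl⟩ := Sha.mk_surjective x
    rfl
  rw [h1]
  apply conjS_congr
  intro y
  rw [lf_apply]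
  change lf σ (algebraMap L (AlgebraicClosure L) y) = _
  rw [lf_apply]
  rfl

end H86I
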