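import Mathlib

/-!
Row Fd (about 90 lines): norms of places above `l`; an arithmetic lemma.

PROOF of norm_pow. For one place `v` with `(l : 𝓞 k) ∈ v.asIdeal`: `Ideal.span {(l : 𝓞 k)}` is contained in `v.asIdeal`, so `absNorm v.asIdeal ∣ absNorm (span {l}) = l ^ finrank ℚ k` (see the end of norm_le_finl in Pool/Agent/H86/T4G/En.lean), so `absNorm v.asIdeal` is a power of `l` (Nat.dvd_prime_pow). Product over `S`: induction / Finset.prod_pow_eq_pow_sum after choosing the exponents.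
PROOF of exp_dvd. `m * (p^(i+s) - p^i) = m * p^i * (p^s - 1)`, and `p - 1 ∣ p^s - 1` (Nat.sub_one_dvd... / `nat_sub_dvd_pow_sub_pow p 1 s`), `p^(i+1) - p^i = p^i (p - 1)`. So `c` exists with `a * (m * p^(i+s) - m * p^i) = c * (p^(i+1) - p^i)`.
-/

set_option autoImplicit false
open scoped Classical

open NumberField IsDedekindDomain

namespace H86I

theorem Fd_one {l : ℕ} (hl : l.Prime) {k : Type} [Field k] [NumberField k]
    (v : HeightOneSpectrum (𝓞 k)) (hv : (l : 𝓞 k) ∈ v.asIdeal) :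
    ∃ a : ℕ, Ideal.absNorm v.asIdeal = l ^ a := by
  have h1 : Ideal.absNorm v.asIdeal ∣ Ideal.absNorm (Ideal.span {(l : 𝓞 k)}) := by
    apply Ideal.absNorm_dvd_absNorm_of_le
    rw [Ideal.span_singleton_le_iff_mem]
    exact hv
  have h2 : Ideal.absNorm (Ideal.span {(l : 𝓞 k)}) = l ^ Module.finrank ℚ k := by
    rw [Ideal.absNorm_span_singleton, show (l : 𝓞 k) = algebraMap ℤ (𝓞 k) l by
      rw [eq_intCast, Int.cast_natCast], Algebra.norm_algebraMap, Int.natAbs_pow, Int.natAbs_natCast,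
      RingOfIntegers.rank]
  rw [h2] at h1
  obtain ⟨a, -, ha⟩ := (Nat.dvd_prime_pow hl).1 h1
  exact ⟨a, ha⟩

theorem norm_pow {l : ℕ} (hl : l.Prime) {k : Type} [Field k] [NumberField k]
    (S : Finset (HeightOneSpectrum (𝓞 k))) (hS : ∀ v ∈ S, (l : 𝓞 k) ∈ v.asIdeal) :
    ∃ a : ℕ, ∏ v ∈ S, Ideal.absNorm v.asIdeal = l ^ a := by
  induction S using Finset.induction_on with
  | empty => exact ⟨0, by simp⟩
  | insert v S hv ih =>
    obtain ⟨a, ha⟩ := ih (fun w hw => hS w (Finset.mem_insert_of_mem hw))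
    obtain ⟨b, hb⟩ := Fd_one hl v (hS v (Finset.mem_insert_self v S))
    exact ⟨b + a, by rw [Finset.prod_insert hv, ha, hb, pow_add]⟩

theorem exp_dvd {p : ℕ} (hp : 1 ≤ p) (a m i s : ℕ) :
    ∃ c : ℕ, a * (m * p ^ (i + s) - m * p ^ i) = c * (p ^ (i + 1) - p ^ (i + 1 - 1)) := by
  obtain ⟨q, rfl⟩ := Nat.exists_eq_add_of_le hp
  have h1 : q ∣ (1 + q) ^ s - 1 := by
    have h := Nat.sub_dvd_pow_sub_pow (1 + q) 1 s
    rwa [one_pow, Nat.add_sub_cancel_left] at h
  obtain ⟨t, ht⟩ := h1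
  have hs : (1 + q) ^ s = q * t + 1 := by
    have h2 : 1 ≤ (1 + q) ^ s := Nat.one_le_pow _ _ (by omega)
    omega
  refine ⟨a * m * t, ?_⟩
  rw [pow_add, hs, pow_succ, Nat.add_sub_cancel]
  have e1 : m * ((1 + q) ^ i * (q * t + 1)) - m * (1 + q) ^ i = m * (1 + q) ^ i * (q * t) := by
    have : m * ((1 + q) ^ i * (q * t + 1)) = m * (1 + q) ^ i * (q * t) + m * (1 + q) ^ i := by ring
    omega
  have e2 : (1 + q) ^ i * (1 + q) - (1 + q) ^ i = (1 + q) ^ i * q := by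
    have : (1 + q) ^ i * (1 + q) = (1 + q) ^ i * q + (1 + q) ^ i := by ring
    omega
  rw [e1, e2]
  ring

end H86I
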