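import Pool.Agent.H86.IW.Fe
import Pool.Agent.H86.IW.Fa
import Pool.Agent.H86.IW.Fb
import Pool.Agent.H86.IW.Fc
import Pool.Agent.H86.IW.Fd

/-!
The exact Iwasawa formula for the `l`-Selmer groups (assembly, no row).
-/

set_option autoImplicit false
set_option linter.style.haveILetI false
open scoped Classical

open WeierstrassCurve IsDedekindDomain NumberField Pool.Agent.H10 Pool.Agent.H11 H78D H68SS H5SW
  H68TM H86G H68IM H68TL H68QS

namespace H86I

theorem sub_mul_dvd {q a b : ℕ} (ha : 1 ≤ a) (hb : 1 ≤ b) (h1 : q ∣ a - 1) (h2 : q ∣ b - 1) :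
    q ∣ a * b - 1 := by
  have h : a * b - 1 = a * (b - 1) + (a - 1) := by
    obtain ⟨a', rfl⟩ := Nat.exists_eq_add_of_le ha
    obtain ⟨b', rfl⟩ := Nat.exists_eq_add_of_le hb
    simp only [Nat.add_sub_cancel_left]
    have : (1 + a') * (1 + b') = (1 + a') * b' + a' + 1 := by ring
    omega
  rw [h]
  exact dvd_add (h2.mul_left _) h1

/-- The norm of the trivial group has trivial kernel. -/
theorem ker_one {G A : Type} [Group G] [Fintype G] [AddCommGroup A] (ρ : G →* AddMonoid.End A)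
    (h : Fintype.card G = 1) : Nat.card (H68IW.nrm ρ).ker = 1 := by
  haveI : Subsingleton G := Fintype.card_le_one_iff_subsingleton.1 h.le
  have h1 : (H68IW.nrm ρ).ker = ⊥ := by
    rw [eq_bot_iff]
    intro a ha
    rw [AddMonoidHom.mem_ker, H68IW.nrm_apply] at ha
    have h2 : ∑ g : G, ρ g a = a := by
      rw [Fintype.sum_subsingleton _ (1 : G), map_one]
      rfl
    rw [h2] at ha
    exact ha
  rw [h1]
  exact AddSubgroup.card_bot

/-- The orders of the new parts are one modulo a power of `p`. -/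
theorem new_congr {l p : ℕ} [Fact l.Prime] [Fact p.Prime] (hp2 : p ≠ 2) (hlp : l ≠ p)
    {k K0 K L : Type} [Field k] [NumberField k] [Field K0] [NumberField K0] [Field K]
    [NumberField K] [Field L] [NumberField L] [Algebra k K0] [Algebra k K] [Algebra k L]
    [Algebra K0 K] [Algebra K0 L] [Algebra K L] [IsScalarTower k K0 L] [IsScalarTower k K L]
    [IsScalarTower K0 K L] [IsGalois K0 L] [IsGalois K L] (hL : H68IW.Lay p k L)
    {V0 : WeierstrassCurve K0} {V : WeierstrassCurve K} {V' : WeierstrassCurve L}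
    (hV : V.map (algebraMap K L) = V') (hV0 : V0.map (algebraMap K0 L) = V') (hΔ : V'.Δ ≠ 0)
    {i s : ℕ} (hi : Module.finrank K0 K = p ^ i) (hs : Module.finrank K L = p ^ s) (hs1 : 1 ≤ s) :
    p ^ (i + 1) ∣ Nat.card (H68IW.Mn l hV) - 1 ∧ p ^ (i + 1) ∣ Nat.card (H68IW.Hn l hV) - 1 := by
  have hl : l.Prime := Fact.out
  have hp : p.Prime := Fact.out
  haveI : FiniteDimensional K0 L := Module.Finite.of_restrictScalars_finite ℚ K0 L
  haveI : FiniteDimensional K0 K := Module.Finite.of_restrictScalars_finite ℚ K0 K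
  haveI : FiniteDimensional K L := Module.Finite.of_restrictScalars_finite ℚ K L
  have hj : Module.finrank K0 L = p ^ (i + s) := by
    rw [← Module.finrank_mul_finrank K0 K L, hi, hs, pow_add]
  obtain ⟨-, hcyc⟩ := lay_gal (p := p) hp2 hL hj
  haveI : IsCyclic (L ≃ₐ[K0] L) := hcyc
  have hG : Nat.card (L ≃ₐ[K0] L) = p ^ (i + s) := by
    rw [← hj]
    exact IsGalois.card_aut_eq_finrank K0 L
  have hH : Fintype.card (L ≃ₐ[K] L) = p ^ s := by
    rw [← Nat.card_eq_fintype_card, ← hs]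
    exact IsGalois.card_aut_eq_finrank K L
  haveI := finite_q hΔ hl.ne_zero
  haveI := finite_t hΔ hl.ne_zero
  have he : i + s - s + 1 = i + 1 := by omega
  have h1 := free_gen_q (G := L ≃ₐ[K0] L) (H := L ≃ₐ[K] L) hl hp hlp hG hH hs1
    (AlgEquiv.restrictScalarsHom K0) (AlgEquiv.restrictScalarsHom_injective K0)
    (H68IW.pA hV0) (H68IW.pA hV) (fun σ P => pA_res hV hV0 σ P) inferInstance
  have h2 := free_gen_t (G := L ≃ₐ[K0] L) (H := L ≃ₐ[K] L) hl hp hlp hG hH hs1
    (AlgEquiv.restrictScalarsHom K0) (AlgEquiv.restrictScalarsHom_injective K0)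
    (actH hV0) (actH hV) (fun σ x => actH_res hV hV0 σ x) inferInstance
  rw [he] at h1 h2
  exact ⟨h1, h2⟩

/-- The exact growth of the `l`-Selmer group. -/
theorem iwasawa_formula {l p f : ℕ} [Fact l.Prime] [Fact p.Prime] (hl2 : l ≠ 2) (hp2 : p ≠ 2)
    (hlp : l ≠ p) (hf : f ≠ 0) {k : Type} [Field k] [NumberField k] (hk : LType l k)
    (hkl : UnrL l k) {E : WeierstrassCurve k} (hE : E.Δ ≠ 0)
    {S : Finset (HeightOneSpectrum (𝓞 k))} (H : H68IW.IwPoint l f E S) :
    ∃ N : ℕ, ∀ (K0 : Type) [Field K0] [NumberField K0] [Algebra k K0],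
      p ^ N ∣ Module.finrank ℚ K0 → ∃ M : ℕ, ∀ (K L : Type) [Field K] [NumberField K] [Field L]
      [NumberField L] [Algebra k K] [Algebra k L] [Algebra K0 K] [Algebra K0 L] [Algebra K L]
      [IsScalarTower k K0 K] [IsScalarTower k K0 L] [IsScalarTower k K L] [IsScalarTower K0 K L],
      H68IW.Lay p k L → (∃ j : ℕ, Module.finrank K0 L = p ^ j) → p ^ M ∣ Module.finrank K0 K →
      H68IW.sel l L (E.map (algebraMap k L)) =
        (∏ v ∈ S, Ideal.absNorm v.asIdeal) ^ (Module.finrank k L - Module.finrank k K) *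
          H68IW.sel l K (E.map (algebraMap k K)) := by
  have hl : l.Prime := Fact.out
  have hp : p.Prime := Fact.out
  have hSl : ∀ v ∈ S, (l : 𝓞 k) ∈ v.asIdeal := H.1
  obtain ⟨N, s, hN⟩ := sel_upper hl2 hp2 hlp hf hk hkl hE H hSl
  obtain ⟨C, hC⟩ : ∃ C : ℕ, ∀ (L' L : Type) [Field L'] [NumberField L'] [Field L] [NumberField L]
      [Algebra k L] (h : L' →+* L), IsR p L' → IntermediateField.adjoin k (Set.range h) = ⊤ →
      (∏ v ∈ S, Ideal.absNorm v.asIdeal) ^ Module.finrank k L ≤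
        C * H68IW.sel l L (E.map (algebraMap k L)) := by
    haveI := hk.1
    obtain ⟨HS, F, _, _, _, _, J, x, y, h, hJ, hTl, hTJ, hst, hw⟩ := H
    haveI : IsGalois k F := IsCyclotomicExtension.isGalois {f} k F
    refine sel_lower4 l p hl2 hp2 hlp.symm hkl hE (T₀ := Affine.Point.some x y h) ?_ hTl hst ?_ S
      hSl ?_
    · exact Affine.Point.some_ne_zero h
    · intro φ g hg
      have hgJ : g = J := by
        apply AlgEquiv.ext
        intro z
        exact φ.injective ((hg z).trans (hJ φ z).symm)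
      rw [hgJ]
      exact hTJ
    · intro 𝔫 h𝔫
      have h1 := hSl _ h𝔫
      rw [H73IS.mem_below, map_natCast] at h1
      rcases hw 𝔫 h1 with h2 | h2
      · exact ⟨x, y, h, rfl, h2.2⟩
      · exact absurd h𝔫 h2.1
  obtain ⟨a, ha⟩ := norm_pow hl S hSl
  rw [ha] at hN hC ⊢
  refine ⟨N, ?_⟩
  intro K0 _ _ _ hK0
  set C' : ℕ := C * (H68IW.sel l K0 (E.map (algebraMap k K0)) * l ^ s) with hC'
  refine ⟨C', ?_⟩
  intro K L _ _ _ _ _ _ _ _ _ _ _ _ _ hL hj hM
  obtain ⟨j, hj⟩ := hj
  haveI : FiniteDimensional K0 L := Module.Finite.of_restrictScalars_finite ℚ K0 L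
  haveI : FiniteDimensional K0 K := Module.Finite.of_restrictScalars_finite ℚ K0 K
  haveI : FiniteDimensional K L := Module.Finite.of_restrictScalars_finite ℚ K L
  have hKL := Module.finrank_mul_finrank K0 K L
  obtain ⟨i, hij, hi⟩ := (Nat.dvd_prime_pow hp).1 (Dvd.intro _ (hKL.trans hj))
  obtain ⟨s', hsj, hs'⟩ := (Nat.dvd_prime_pow hp).1 (Dvd.intro_left _ (hKL.trans hj))
  have hK : H68IW.Lay p k K := lay_down hL
  obtain ⟨hg0, -⟩ := lay_gal (p := p) (k := k) hp2 hL hj
  obtain ⟨hg1, -⟩ := lay_gal (p := p) (k := k) hp2 hK hi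
  obtain ⟨hg2, -⟩ := lay_gal (p := p) (k := k) hp2 hL hs'
  haveI := hg0
  haveI := hg1
  haveI := hg2
  have hV : (E.map (algebraMap k K)).map (algebraMap K L) = E.map (algebraMap k L) := by
    rw [WeierstrassCurve.map_map, ← IsScalarTower.algebraMap_eq]
  have hV0 : (E.map (algebraMap k K0)).map (algebraMap K0 L) = E.map (algebraMap k L) := by
    rw [WeierstrassCurve.map_map, ← IsScalarTower.algebraMap_eq]
  have hΔL : (E.map (algebraMap k L)).Δ ≠ 0 := by
    rw [WeierstrassCurve.map_Δ]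
    exact fun h => hE ((map_eq_zero _).1 h)
  haveI := finite_q hΔL hl.ne_zero
  haveI := finite_t hΔL hl.ne_zero
  have hsp := sel_split hV hl (by
    rw [hs']
    intro h
    exact hlp ((Nat.prime_dvd_prime_iff_eq hl hp).1 (hl.dvd_of_dvd_pow h)))
  have hm : Module.finrank k L = Module.finrank k K0 * p ^ (i + s') := by
    rw [← Module.finrank_mul_finrank k K0 L, ← hKL, hi, hs', pow_add]
  have hm' : Module.finrank k K = Module.finrank k K0 * p ^ i := by
    rw [← Module.finrank_mul_finrank k K0 K, hi]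
  rcases Nat.eq_zero_or_pos s' with hs0 | hs1
  · subst hs0
    have hcard : Fintype.card (L ≃ₐ[K] L) = 1 := by
      rw [← Nat.card_eq_fintype_card, IsGalois.card_aut_eq_finrank K L, hs', pow_zero]
    have e1 : Nat.card (H68IW.Mn l hV) = 1 := ker_one _ hcard
    have e2 : Nat.card (H68IW.Hn l hV) = 1 := ker_one _ hcard
    rw [hsp, e1, e2, hm, hm', add_zero, Nat.sub_self, pow_zero]
    ring
  · obtain ⟨c1, c2⟩ := new_congr (l := l) hp2 hlp hL hV hV0 hΔL hi hs' hs1
    obtain ⟨d1, e1⟩ := H68IW.card_pow (A := H68IW.Mn l hV) hl (fun a => by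
      apply Subtype.ext
      obtain ⟨b, hb⟩ := QuotientAddGroup.mk'_surjective _ a.1
      change l • a.1 = 0
      rw [← hb, ← map_nsmul]
      exact (QuotientAddGroup.eq_zero_iff _).2 ⟨b, rfl⟩)
    obtain ⟨d2, e2⟩ := H68IW.card_pow (A := H68IW.Hn l hV) hl (fun a => by
      apply Subtype.ext
      apply Subtype.ext
      exact a.1.2)
    have hcong : p ^ (i + 1) ∣ l ^ (d1 + d2) - 1 := by
      rw [pow_add l d1 d2, ← e1, ← e2]
      refine sub_mul_dvd ?_ ?_ c1 c2
      · rw [e1]; exact Nat.one_le_pow _ _ hl.pos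
      · rw [e2]; exact Nat.one_le_pow _ _ hl.pos
    rw [e1, e2, ← pow_add] at hsp
    obtain ⟨c, hc⟩ := exp_dvd hp.one_le a (Module.finrank k K0) i s'
    have heul := H68IW.euler hl hp hlp (Nat.le_add_left 1 i) c
    have hle : Module.finrank k K ≤ Module.finrank k L := by
      rw [hm, hm']
      exact Nat.mul_le_mul_left _ (Nat.pow_le_pow_right hp.pos (Nat.le_add_right _ _))
    have hexp : (l ^ a) ^ (Module.finrank k L - Module.finrank k K) =
        l ^ (c * (p ^ (i + 1) - p ^ (i + 1 - 1))) := by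
      rw [← pow_mul, hm, hm', hc]
    have hmul : (l ^ a) ^ Module.finrank k L =
        (l ^ a) ^ Module.finrank k K * l ^ (c * (p ^ (i + 1) - p ^ (i + 1 - 1))) := by
      rw [← hexp, ← pow_add, Nat.add_sub_cancel' hle]
    have uL := hN K0 L hL ⟨j, hj⟩ hK0
    have uK := hN K0 K hK ⟨i, hi⟩ hK0
    obtain ⟨LL, _, _, gL, hRL, hgenL⟩ := hL
    obtain ⟨KK, _, _, gK, hRK, hgenK⟩ := hK
    have lL := hC LL L gL hRL hgenL
    have lK := hC KK K gK hRK hgenK
    have hpos : 0 < (l ^ a) ^ Module.finrank k K := pow_pos (pow_pos hl.pos _) _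
    have hCp : C' < p ^ (i + 1) := by
      have h1 : C' ≤ i := (Nat.pow_dvd_pow_iff_le_right hp.one_lt).1 (hi ▸ hM)
      calc C' < p ^ C' := Nat.lt_pow_self hp.one_lt
        _ ≤ p ^ (i + 1) := Nat.pow_le_pow_right hp.pos (by omega)
    have hd := H68IW.pin hl hp hlp hcong heul (C := C') ?_ ?_ hCp
    · rw [hsp, hexp, ← hd, mul_comm]
    · -- upper
      apply Nat.le_of_mul_le_mul_left _ hpos
      calc (l ^ a) ^ Module.finrank k K * l ^ (d1 + d2)
          ≤ (C * H68IW.sel l K (E.map (algebraMap k K))) * l ^ (d1 + d2) :=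
            Nat.mul_le_mul_right _ lK
        _ = C * H68IW.sel l L (E.map (algebraMap k L)) := by rw [hsp]; ring
        _ ≤ C * (H68IW.sel l K0 (E.map (algebraMap k K0)) *
              (l ^ s * (l ^ a) ^ Module.finrank k L)) := Nat.mul_le_mul_left _ uL
        _ = _ := by rw [hmul, hC']; ring
    · -- lower
      apply Nat.le_of_mul_le_mul_left _ hpos
      calc (l ^ a) ^ Module.finrank k K * l ^ (c * (p ^ (i + 1) - p ^ (i + 1 - 1)))
          = (l ^ a) ^ Module.finrank k L := hmul.symm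
        _ ≤ C * H68IW.sel l L (E.map (algebraMap k L)) := lL
        _ = C * H68IW.sel l K (E.map (algebraMap k K)) * l ^ (d1 + d2) := by rw [hsp]; ring
        _ ≤ C * (H68IW.sel l K0 (E.map (algebraMap k K0)) *
              (l ^ s * (l ^ a) ^ Module.finrank k K)) * l ^ (d1 + d2) :=
            Nat.mul_le_mul_right _ (Nat.mul_le_mul_left _ uK)
        _ = _ := by rw [hC']; ring

end H86I
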