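import Pool.Agent.H86.W6.Wu
import Pool.Agent.H86.T4G.Ga
import Pool.Agent.H68.IW.Df

/-!
Row Rb (about 100 lines): being close to an `l`-th power, at conjugate places. Use the STATEMENTS of T4G/Ga (trans_place), Gx (DG.chi, DG.cyc).

PROOF. `δ : F ≃ₐ[L] F` from trans_place `𝔓 𝔓'`: it maps the ideal of `𝔓` onto the one of `𝔓'`, so `𝔓'.valuation F (δ y) = 𝔓.valuation F y` for all `y : F` (see Wl_stab in T4G/Wl.lean, inI_val in T4G/Wj.lean, exists_conj in H10, or px_conj). `δ T = c • T`, `l ∤ c` (DG.chi), `δ ζ = ζ ^ m`, `l ∤ m` (DG.cyc), `n` with `c n ≡ m` modulo `l` (as in wild_lv in W6/Wu.lean), `l ∤ n`. `δ x = x ^ n * a ^ l` (Eig), `a ≠ 0`.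
 `v_𝔓 (x / z^l - 1)` small gives `v_𝔓' (δ x / (δ z)^l - 1)` small (the same value), so Lz 𝔓' l (δ x), Lz 𝔓' l (x ^ n) (`x^n = δ x / a^l`, with `z' := δ z / a`).
 Lz is closed under powers: if `y / z^l = 1 + small` then `(y / z^l) ^ n' = 1 + small` (`v (Y^n' - 1) ≤ v (Y - 1)` if `v Y ≤ 1`: Wk_pow_sub in T4G/Wk.lean). Choose `n'` with `n n' = 1 + l t` (Nat; `l ∤ n`, Nat.exists_mul_mod_eq_one_of_coprime): `(x^n)^n' = x * (x^t)^l`, so Lz 𝔓' l x with `z'' := z'^n' / x^t`.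
-/

set_option autoImplicit false
open scoped Classical

open WithZero WeierstrassCurve IsDedekindDomain NumberField Pool.Agent.H10 Pool.Agent.H11 H78D H86G

namespace H86I

private theorem Rb_val {L F : Type} [Field L] [NumberField L] [Field F] [NumberField F] [Algebra L F]
    {𝔓 𝔓' : HeightOneSpectrum (𝓞 F)} (δ : F ≃ₐ[L] F)
    (hδ : ∀ y : 𝓞 F, RingOfIntegers.mapRingEquiv (δ : F ≃+* F) y ∈ 𝔓'.asIdeal ↔ y ∈ 𝔓.asIdeal)
    (y : F) : 𝔓'.valuation F (δ y) = 𝔓.valuation F y := by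
  obtain ⟨w', h1, -⟩ := Pool.Agent.H10.exists_conj δ 𝔓'
  have h2 : 𝔓 = w' := by
    apply HeightOneSpectrum.ext
    refine 𝔓.isMaximal.eq_of_le w'.isPrime.ne_top ?_
    intro x hx
    have h3 := (hδ x).2 hx
    have h4 : 𝔓'.valuation F ((RingOfIntegers.mapRingEquiv (δ : F ≃+* F) x : 𝓞 F) : F) < 1 :=
      (HeightOneSpectrum.valuation_lt_one_iff_mem 𝔓' _).2 h3
    have h5 : ((RingOfIntegers.mapRingEquiv (δ : F ≃+* F) x : 𝓞 F) : F) = δ (x : F) := rfl
    rw [h5, h1] at h4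
    exact (HeightOneSpectrum.valuation_lt_one_iff_mem w' _).1 h4
  rw [h1, ← h2]

private theorem Rb_pow {F : Type} [Field F] {x A : F} {n n' l t : ℕ} (h : n * n' = 1 + l * t)
    (hx : x ≠ 0) : x / (A ^ n' / x ^ t) ^ l = (x ^ n / A ^ l) ^ n' := by
  rw [div_pow, div_pow, ← pow_mul, ← pow_mul, ← pow_mul, ← pow_mul, h, pow_add, pow_one,
    mul_comm n' l, mul_comm t l, div_div_eq_mul_div]

private theorem Rb_sub {F : Type} [Field F] {v : Valuation F (WithZero (Multiplicative ℤ))} {y : F}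
    (hy : v y ≤ 1) (m : ℕ) : v (y ^ m - 1) ≤ v (y - 1) := by
  induction m with
  | zero => rw [pow_zero, sub_self, map_zero]; exact zero_le
  | succ m ih =>
    have e : y ^ (m + 1) - 1 = y * (y ^ m - 1) + (y - 1) := by ring
    rw [e]
    refine v.map_add_le ?_ le_rfl
    rw [map_mul]
    calc v y * v (y ^ m - 1) ≤ 1 * v (y - 1) := mul_le_mul' hy ih
      _ = v (y - 1) := one_mul _

theorem lz_conj {l : ℕ} {L F : Type} [Field L] [NumberField L] [Field F] [NumberField F]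
    [Algebra L F] {V : WeierstrassCurve L} {W : WeierstrassCurve F}
    {hV : V.map (algebraMap L F) = W} {T : W.toAffine.Point} {ζ : F} (H : DG l hV T ζ)
    {𝔓 𝔓' : HeightOneSpectrum (𝓞 F)} (h : H73IS.below L 𝔓 = H73IS.below L 𝔓') {x : F}
    (hx : x ≠ 0) (hE : Eig l hV T ζ x) (hz : H68IW.Lz 𝔓 l x) : H68IW.Lz 𝔓' l x := by
  haveI := H.gal
  obtain ⟨δ, hδ⟩ := trans_place (L := L) 𝔓 𝔓' h
  have hv := Rb_val δ hδ
  have hl := H.prime
  obtain ⟨c, hc, hlc⟩ := H.chi δ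
  obtain ⟨m, hm, hlm⟩ := H.cyc δ
  have hcop : Nat.Coprime c l := ((Nat.Prime.coprime_iff_not_dvd hl).2 hlc).symm
  obtain ⟨n, hcn⟩ : ∃ n, c * n ≡ m [MOD l] := by
    obtain ⟨m', -, hm'⟩ := Nat.exists_mul_mod_eq_one_of_coprime hcop hl.one_lt
    refine ⟨m' * m, ?_⟩
    have h1 : c * m' ≡ 1 [MOD l] := by
      show c * m' % l = 1 % l
      rw [hm', Nat.mod_eq_of_lt hl.one_lt]
    have h2 := h1.mul_right m
    rwa [one_mul, mul_assoc] at h2
  have hln : ¬ l ∣ n := by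
    intro hd
    have h1 : l ∣ c * n := hd.mul_left c
    exact hlm ((hcn.dvd_iff (dvd_refl l)).1 h1)
  obtain ⟨y, hy⟩ := hE δ c n m hc hm hcn
  have hy0 : y ≠ 0 := by
    rintro rfl
    rw [zero_pow hl.ne_zero, mul_zero] at hy
    exact hx ((map_eq_zero δ).1 hy)
  obtain ⟨z, hz0, hzx⟩ := hz
  have hδz : δ z ≠ 0 := (map_ne_zero δ).2 hz0
  -- the inverse of `n`
  obtain ⟨n', -, hn'⟩ := Nat.exists_mul_mod_eq_one_of_coprime
    ((Nat.Prime.coprime_iff_not_dvd hl).2 hln).symm hl.one_lt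
  have hnt : n * n' = 1 + l * (n * n' / l) := by
    have := Nat.mod_add_div (n * n') l
    rw [hn'] at this
    exact this.symm
  have hY : x ^ n / (δ z / y) ^ l = δ (x / z ^ l) := by
    rw [map_div₀, map_pow, hy, div_pow, div_div_eq_mul_div]
  have hsm : 𝔓'.valuation F (x ^ n / (δ z / y) ^ l - 1) ≤ exp (-((l : ℤ) + 1)) := by
    have e1 : x ^ n / (δ z / y) ^ l - 1 = δ (x / z ^ l - 1) := by
      rw [hY, map_sub, map_one]
    rw [e1, hv]
    exact hzx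
  have hle : 𝔓'.valuation F (x ^ n / (δ z / y) ^ l) ≤ 1 := by
    have e1 : x ^ n / (δ z / y) ^ l = (x ^ n / (δ z / y) ^ l - 1) + 1 := by ring
    rw [e1]
    refine Valuation.map_add_le _ (hsm.trans ?_) (by rw [map_one])
    rw [← exp_zero, exp_le_exp]
    omega
  refine ⟨(δ z / y) ^ n' / x ^ (n * n' / l),
    div_ne_zero (pow_ne_zero _ (div_ne_zero hδz hy0)) (pow_ne_zero _ hx), ?_⟩
  rw [Rb_pow hnt hx]
  exact (Rb_sub hle n').trans hsm

end H86I
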