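import Pool.Agent.H86.IW.Ra
import Pool.Agent.H86.IW.Rb
import Pool.Agent.H86.T4G.Gk

/-!
Part (A): a pigeonhole for the places in a finite set (assembly, no row).
-/

set_option autoImplicit false
set_option linter.style.haveILetI false
open scoped Classical

open WithZero WeierstrassCurve IsDedekindDomain NumberField Pool.Agent.H10 Pool.Agent.H11 H78D H86G

namespace H86I

section

variable {F : Type} [Field F] [NumberField F] {w : HeightOneSpectrum (𝓞 F)} {l : ℕ}

theorem lz_val (hl : l.Prime) {x : F} (h : H68IW.Lz w l x) :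
    ∃ z : F, z ≠ 0 ∧ w.valuation F (x / z ^ l) = 1 ∧
      w.valuation F (x / z ^ l - 1) ≤ exp (-((l : ℤ) + 1)) := by
  obtain ⟨z, hz, h1⟩ := h
  refine ⟨z, hz, Wk_one_of (lt_of_le_of_lt h1 ?_), h1⟩
  rw [← exp_zero, exp_lt_exp]
  have := hl.pos
  omega

theorem lz_one : H68IW.Lz w l (1 : F) :=
  ⟨1, one_ne_zero, by rw [one_pow, div_one, sub_self, map_zero]; exact zero_le⟩

theorem lz_mul (hl : l.Prime) {x y : F} (hx : H68IW.Lz w l x) (hy : H68IW.Lz w l y) :
    H68IW.Lz w l (x * y) := by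
  obtain ⟨z, hz, h1, h2⟩ := lz_val hl hx
  obtain ⟨z', hz', h3, h4⟩ := lz_val hl hy
  refine ⟨z * z', mul_ne_zero hz hz', ?_⟩
  have e : x * y / (z * z') ^ l - 1 = (x / z ^ l) * (y / z' ^ l - 1) + (x / z ^ l - 1) := by
    rw [mul_pow, mul_div_mul_comm]
    ring
  rw [e]
  refine ((w.valuation F).map_add _ _).trans (max_le ?_ h2)
  rw [map_mul, h1, one_mul]
  exact h4

theorem lz_inv (hl : l.Prime) {x : F} (hx0 : x ≠ 0) (hx : H68IW.Lz w l x) :
    H68IW.Lz w l x⁻¹ := by
  obtain ⟨z, hz, h1, h2⟩ := lz_val hl hx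
  refine ⟨z⁻¹, inv_ne_zero hz, ?_⟩
  have e : x⁻¹ / z⁻¹ ^ l - 1 = -((x / z ^ l - 1) / (x / z ^ l)) := by
    have h3 : z ^ l ≠ 0 := pow_ne_zero _ hz
    rw [inv_pow]
    field_simp
    ring
  rw [e, Valuation.map_neg, map_div₀, h1, div_one]
  exact h2

end

/-- Part (A) of the exact formula. -/
theorem card_unr {l : ℕ} {L B F : Type} [Field L] [NumberField L] [Field B] [NumberField B]
    [Field F] [NumberField F] [Algebra L B] [Algebra B F] [Algebra L F] [IsScalarTower L B F]
    {V' : WeierstrassCurve L} {WB : WeierstrassCurve B} {hVB : V'.map (algebraMap L B) = WB}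
    {TB : WB.toAffine.Point} {zB : B} (H : DG l hVB TB zB)
    (Sx : Finset (HeightOneSpectrum (𝓞 L)))
    (hw : ∀ w ∈ Sx, (l : 𝓞 L) ∈ w.asIdeal ∧ (l : 𝓞 L) ∉ w.asIdeal ^ 2)
    {I : Type} [Fintype I] (hc : ∏ w ∈ Sx, (l * Ideal.absNorm w.asIdeal) < Fintype.card I)
    (x : I → B) (hE : ∀ i, Eig l hVB TB zB (x i))
    (hv : ∀ i (P : HeightOneSpectrum (𝓞 B)), H73IS.below L P ∈ Sx →
      ∃ k : ℤ, P.valuation B (x i) = exp (l * k)) :
    ∃ i j, i ≠ j ∧ ∀ D : HeightOneSpectrum (𝓞 F), H73IS.below L D ∈ Sx →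
      UnrK l F (algebraMap B F (x i / x j)) D := by
  haveI := H.gal
  have hl := H.prime
  choose up hup using fun w : HeightOneSpectrum (𝓞 L) => exists_above (F := B) w
  rcases Sx.eq_empty_or_nonempty with hS | ⟨w₀, hw₀⟩
  · subst hS
    rw [Finset.prod_empty] at hc
    obtain ⟨i, j, hij⟩ := Fintype.one_lt_card_iff.1 hc
    exact ⟨i, j, hij, fun D hD => absurd hD (Finset.notMem_empty _)⟩
  have hx0 : ∀ i, x i ≠ 0 := by
    intro i h0
    obtain ⟨k, hk⟩ := hv i (up w₀) (by rw [hup]; exact hw₀)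
    rw [h0, map_zero] at hk
    exact exp_ne_zero hk.symm
  -- the equivalence relation at a place
  let s : HeightOneSpectrum (𝓞 L) → Setoid I := fun w =>
    { r := fun i j => H68IW.Lz (up w) l (x i / x j)
      iseqv :=
        { refl := fun i => by
            rw [div_self (hx0 i)]
            exact lz_one
          symm := fun {i j} h => by
            have h1 := lz_inv hl (div_ne_zero (hx0 i) (hx0 j)) h
            rwa [inv_div] at h1
          trans := fun {i j k} h1 h2 => by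
            have h3 := lz_mul hl h1 h2
            rwa [div_mul_div_cancel₀ (hx0 j)] at h3 } }
  have hs : ∀ w ∈ Sx, Fintype.card (Quotient (s w)) ≤ l * Ideal.absNorm w.asIdeal := by
    intro w hwS
    apply card_quot_le
    intro f
    have hov : ∀ y : 𝓞 L, algebraMap (𝓞 L) (𝓞 B) y ∈ (up w).asIdeal ↔ y ∈ w.asIdeal := by
      intro y
      rw [← H73IS.mem_below, hup]
    obtain ⟨i, j, hij, z, hz, hzx⟩ := H86W.wild_lv_val H w (up w) hov (hw w hwS).1 (hw w hwS).2
      (fun i => x (f i)) (fun i => hv _ _ (by rw [hup]; exact hwS)) (fun i => hE _)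
    refine ⟨i, j, hij, z, hz, ?_⟩
    push_cast at hzx
    exact hzx
  haveI : Fintype ((w : Sx) → Quotient (s w.1)) := Fintype.ofFinite _
  let φ : I → ((w : Sx) → Quotient (s w.1)) := fun i w => Quotient.mk (s w.1) i
  have hcard : Fintype.card ((w : Sx) → Quotient (s w.1)) < Fintype.card I := by
    refine lt_of_le_of_lt ?_ hc
    rw [← Nat.card_eq_fintype_card, Nat.card_pi]
    have h3 : ∏ w : Sx, Nat.card (Quotient (s w.1)) ≤
        ∏ w : Sx, l * Ideal.absNorm w.1.asIdeal :=
      Finset.prod_le_prod' fun w _ => by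
        rw [Nat.card_eq_fintype_card]
        exact hs w.1 w.2
    refine h3.trans (le_of_eq ?_)
    exact Finset.prod_coe_sort Sx (fun w => l * Ideal.absNorm w.asIdeal)
  obtain ⟨i, j, hij, hφ⟩ := Fintype.exists_ne_map_eq_of_card_lt φ hcard
  refine ⟨i, j, hij, fun D hD => ?_⟩
  have hbb : H73IS.below L (H73IS.below B D) = H73IS.below L D := by
    apply HeightOneSpectrum.ext
    ext y
    rw [H73IS.mem_below, H73IS.mem_below, H73IS.mem_below,
      ← IsScalarTower.algebraMap_apply (𝓞 L) (𝓞 B) (𝓞 F)]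
  have hrel : H68IW.Lz (up (H73IS.below L D)) l (x i / x j) := by
    have e1 : Quotient.mk (s (H73IS.below L D)) i = Quotient.mk (s (H73IS.below L D)) j :=
      congrFun hφ ⟨_, hD⟩
    exact Quotient.exact e1
  have hconj := lz_conj H (𝔓 := up (H73IS.below L D)) (𝔓' := H73IS.below B D)
    (by rw [hup, hbb]) (div_ne_zero (hx0 i) (hx0 j)) (H86W.eig_div (hE i) (hE j)) hrel
  obtain ⟨z, hz, hzv⟩ := hconj
  have hζF : IsPrimitiveRoot (algebraMap B F zB) l :=
    H.prim.map_of_injective (algebraMap B F).injective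
  refine unr_close hl hζF D ⟨algebraMap B F z, ?_, ?_⟩
  · rw [Ne, map_eq_zero]
    exact hz
  obtain ⟨e, he0, he⟩ := val_pow (k := B) D
  have hlw : (l : 𝓞 L) ∈ (H73IS.below L D).asIdeal ∧ (l : 𝓞 L) ∉ (H73IS.below L D).asIdeal ^ 2 :=
    hw _ hD
  obtain ⟨hlam, -⟩ := ram_l H (H73IS.below L D) (H73IS.below B D)
    (fun y => by rw [← H73IS.mem_below, hbb]) hlw.1 hlw.2
  -- the valuation of `l`
  have hlv : (H73IS.below B D).valuation B ((l : B) * (zB - 1)) = exp (-(l : ℤ)) := by
    have h1 := pow_val ((H73IS.below B D).valuation B).valuationSubring hl H.prim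
    have h2 : (H73IS.below B D).valuation B (l : B) =
        (H73IS.below B D).valuation B ((zB - 1) ^ (l - 1)) := by
      rw [← map_pow] at h1
      exact (((H73IS.below B D).valuation B).isEquiv_valuation_valuationSubring.val_eq).2 h1
    rw [map_mul, h2, map_pow, hlam, ← exp_nsmul, ← exp_add]
    congr 1
    have h4 := hl.one_le
    rw [nsmul_eq_mul]
    push_cast [Nat.cast_sub h4]
    ring
  have e1 : algebraMap B F (x i / x j) / algebraMap B F z ^ l - 1 =
      algebraMap B F (x i / x j / z ^ l - 1) := by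
    rw [map_sub, map_div₀ _ (x i / x j), map_pow, map_one]
  have e2 : ((l : F) * (algebraMap B F zB - 1)) = algebraMap B F ((l : B) * (zB - 1)) := by
    rw [map_mul, map_sub, map_one, map_natCast]
  rw [e1, e2, he, he, hlv]
  refine pow_lt_pow_left₀ (lt_of_le_of_lt hzv ?_) zero_le he0
  rw [exp_lt_exp]
  omega

end H86I
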