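import Mathlib
import Pool.Agent.H73.IS.KVal

/-!
Row Pa (about 100 lines): norms of the places above a finite set of places.

PROOF. The set of the places `w` of `L` with `H73IS.below k w ∈ S` is finite (each `v ∈ S` has finitely many primes above: IsDedekindDomain.primesOver_finite / `Ideal.finite_factors`; or all these `w` contain the nonzero integer `∏_{v ∈ S} absNorm v.asIdeal`, Pool.Agent.H10.bad_fin; `H73IS.mem_below`): `SL` := its Finset. The ideals `w.asIdeal`, `w ∈ SL`, are pairwise coprime maximal ideals and each contains `J := (∏ v ∈ S, v.asIdeal).map (algebraMap (𝓞 k) (𝓞 L))` (`v.asIdeal.map ≤ w.asIdeal` for `v = H73IS.below k w`), so `∏ w ∈ SL, w.asIdeal ∣ J` (Finset.prod_dvd_of_isRelPrime, see prod_dvd_l in Pool/Agent/H86/T4G/En.lean), `absNorm J = (∏ v ∈ S, absNorm v.asIdeal) ^ finrank k L` (Ideal.absNorm_algebraMap, as in norm_le_finl of the same file), `J ≠ 0`: map_dvd Ideal.absNorm, Nat.le_of_dvd.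
-/

set_option autoImplicit false
open scoped Classical

open NumberField IsDedekindDomain

namespace H86I

theorem Pa_dvd {k : Type} [Field k] [NumberField k] (S : Finset (HeightOneSpectrum (𝓞 k)))
    (u : HeightOneSpectrum (𝓞 k)) (hu : u ∈ S) : u.asIdeal ∣ ∏ v ∈ S, v.asIdeal :=
  Finset.dvd_prod_of_mem (fun v : HeightOneSpectrum (𝓞 k) => v.asIdeal) hu

theorem places_above {k : Type} (L : Type) [Field k] [NumberField k] [Field L] [NumberField L]
    [Algebra k L] (S : Finset (HeightOneSpectrum (𝓞 k))) :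
    ∃ SL : Finset (HeightOneSpectrum (𝓞 L)), (∀ w, w ∈ SL ↔ H73IS.below k w ∈ S) ∧
      ∏ w ∈ SL, Ideal.absNorm w.asIdeal ≤
        (∏ v ∈ S, Ideal.absNorm v.asIdeal) ^ Module.finrank k L := by
  obtain ⟨J, hJ⟩ : ∃ J, J = (∏ v ∈ S, v.asIdeal).map (algebraMap (𝓞 k) (𝓞 L)) := ⟨_, rfl⟩
  have hfr : Module.finrank (𝓞 k) (𝓞 L) = Module.finrank k L :=
    (IsFractionRing.finrank_eq (𝓞 k) k (𝓞 L) L).symm
  have hJn : Ideal.absNorm J = (∏ v ∈ S, Ideal.absNorm v.asIdeal) ^ Module.finrank k L := by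
    rw [hJ, Ideal.absNorm_algebraMap, hfr, map_prod]
  have hP0 : ∀ v : HeightOneSpectrum (𝓞 k), Ideal.absNorm v.asIdeal ≠ 0 :=
    fun v h => v.ne_bot (Ideal.absNorm_eq_zero_iff.mp h)
  have hN0 : Ideal.absNorm J ≠ 0 := by
    rw [hJn]
    exact pow_ne_zero _ (Finset.prod_ne_zero_iff.mpr fun v _ => hP0 v)
  have hJ0 : J ≠ 0 := by
    intro h
    apply hN0
    rw [h, map_zero]
  have hle : ∀ w : HeightOneSpectrum (𝓞 L), H73IS.below k w ∈ S → J ≤ w.asIdeal := by
    intro w hw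
    rw [hJ, Ideal.map_le_iff_le_comap]
    have h0 : (H73IS.below k w).asIdeal ∣ ∏ v ∈ S, v.asIdeal := Pa_dvd S _ hw
    have h1 : ∏ v ∈ S, v.asIdeal ≤ (H73IS.below k w).asIdeal := Ideal.dvd_iff_le.mp h0
    intro x hx
    rw [Ideal.mem_comap, ← H73IS.mem_below]
    exact h1 hx
  have hfin : {w : HeightOneSpectrum (𝓞 L) | H73IS.below k w ∈ S}.Finite :=
    (Ideal.finite_factors hJ0).subset fun w hw => Ideal.dvd_iff_le.mpr (hle w hw)
  refine ⟨hfin.toFinset, fun w => by rw [Set.Finite.mem_toFinset]; rfl, ?_⟩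
  have hdvd : ∏ w ∈ hfin.toFinset, w.asIdeal ∣ J := by
    apply Finset.prod_dvd_of_isRelPrime
    · intro w hw w' hw' hne
      have hm : w.asIdeal.IsMaximal := w.isMaximal
      have hm' : w'.asIdeal.IsMaximal := w'.isMaximal
      have : IsCoprime w.asIdeal w'.asIdeal := by
        rw [Ideal.isCoprime_iff_sup_eq]
        exact hm.coprime_of_ne hm' (fun h => hne (HeightOneSpectrum.ext h))
      exact this.isRelPrime
    · intro w hw
      exact Ideal.dvd_iff_le.mpr (hle w ((Set.Finite.mem_toFinset hfin).mp hw))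
  have hn := map_dvd Ideal.absNorm hdvd
  rw [map_prod] at hn
  rw [← hJn]
  exact Nat.le_of_dvd (Nat.pos_of_ne_zero hN0) hn

end H86I
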