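import Pool.Agent.H68.IW.Df

/-!
Row Da (about 120 lines): the trace on the points of an elliptic curve. Use only pm, pm_pm, pm_injective, pm_some, pm_congr (H10), H86G.gp, gp_mul (T4G/Df, Gx).

PROOF. `r := pm (algebraMap K L) hV : V(K) → V'(L)` is injective (pm_injective).
 Descent: a point `Q` of `V'` over `L` with `H86G.gp hV σ Q = Q` for all `σ : L ≃ₐ[K] L` is in the range of `r`: `Q = 0` trivial; `Q = some x y _`: `gp hV σ Q = some (σ x) (σ y) _` (pm_some), so `σ x = x`, `σ y = y` for all `σ` (Affine.Point.some.injEq), `x = algebraMap a`, `y = algebraMap b` (IsGalois: `IsGalois.mem_bot_iff_fixed` / `IsGalois.mem_range_algebraMap_iff_fixed`), `(a, b)` is a nonsingular point of `V` (WeierstrassCurve.Affine.map_nonsingular / `Affine.baseChange_nonsingular`, injective ring homomorphism; subst hV), and `r (some a b) = Q`.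
 `Q := ∑ σ, gp hV σ P` is fixed by every `g`: `gp hV g Q = ∑ σ, gp hV (g * σ) P` (map_sum, gp_mul) `= Q` (Fintype.sum_equiv (Equiv.mulLeft g) or Fintype.sum_bijective).
 `t P` := a chosen preimage of `∑ σ, gp hV σ P`; it is additive because `r` is injective and `P ↦ ∑ σ, gp hV σ P` is additive (AddMonoidHom.mk').
-/

set_option autoImplicit false
open scoped Classical

open WeierstrassCurve IsDedekindDomain NumberField Pool.Agent.H10 Pool.Agent.H11 H78D

namespace H86I

theorem Da_fix {K L : Type} [Field K] [Field L] [Algebra K L] [FiniteDimensional K L]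
    [IsGalois K L] (x : L)
    (h : ∀ σ : L ≃ₐ[K] L, σ x = x) : ∃ y : K, algebraMap K L y = x :=
  IsGalois.mem_range_algebraMap_iff_fixed x |>.2 h

theorem Da_desc {K L : Type} [Field K] [Field L] [Algebra K L] [FiniteDimensional K L]
    [IsGalois K L]
    {V : WeierstrassCurve K} {V' : WeierstrassCurve L} (hV : V.map (algebraMap K L) = V')
    (P : V'.toAffine.Point) (hP : ∀ σ : L ≃ₐ[K] L, H86G.gp hV σ P = P) :
    ∃ P₀ : V.toAffine.Point, pm (algebraMap K L) hV P₀ = P := by
  subst hV
  rcases P with _ | ⟨x, y, hxy⟩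
  · exact ⟨0, map_zero _⟩
  · have h1 : ∀ σ : L ≃ₐ[K] L, σ x = x ∧ σ y = y := by
      intro σ
      have h2 := hP σ
      rw [H86G.gp, pm_some, Affine.Point.some.injEq] at h2
      exact h2
    obtain ⟨x₀, hx⟩ := Da_fix x (fun σ => (h1 σ).1)
    obtain ⟨y₀, hy⟩ := Da_fix y (fun σ => (h1 σ).2)
    subst hx hy
    refine ⟨.some x₀ y₀ ((Affine.map_nonsingular V (algebraMap K L).injective x₀ y₀).mp hxy), ?_⟩
    rw [pm_some]

theorem exists_trace {K L : Type} [Field K] [NumberField K] [Field L] [NumberField L]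
    [Algebra K L] [IsGalois K L] {V : WeierstrassCurve K} {V' : WeierstrassCurve L}
    (hV : V.map (algebraMap K L) = V') :
    ∃ t : V'.toAffine.Point →+ V.toAffine.Point, ∀ P : V'.toAffine.Point,
      pm (algebraMap K L) hV (t P) = ∑ σ : L ≃ₐ[K] L, H86G.gp hV σ P := by
  have hfd : FiniteDimensional K L := Module.Finite.of_restrictScalars_finite ℚ K L
  have h : ∀ P : V'.toAffine.Point, ∃ P₀ : V.toAffine.Point,
      pm (algebraMap K L) hV P₀ = ∑ σ : L ≃ₐ[K] L, H86G.gp hV σ P := by
    intro P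
    apply Da_desc hV
    intro g
    rw [map_sum]
    have e1 : ∀ σ : L ≃ₐ[K] L, H86G.gp hV g (H86G.gp hV σ P) = H86G.gp hV (g * σ) P :=
      fun σ => (H86G.gp_mul hV g σ P).symm
    rw [Finset.sum_congr rfl (fun σ _ => e1 σ)]
    exact Fintype.sum_equiv (Equiv.mulLeft g) _ _ (fun σ => rfl)
  choose t ht using h
  refine ⟨AddMonoidHom.mk' t (fun P Q => ?_), ht⟩
  apply pm_injective (algebraMap K L) hV
  rw [ht, map_add, ht, ht, ← Finset.sum_add_distrib]
  exact Finset.sum_congr rfl (fun σ _ => map_add _ _ _)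

end H86I
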