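import Pool.Agent.H86.IW.Db
import Pool.Agent.H86.T4J.Vc

/-!
Part (B), change of variables at the places of `S` (assembly, no row).
-/

set_option autoImplicit false
set_option linter.style.haveILetI false
open scoped Classical

open WithZero WeierstrassCurve IsDedekindDomain NumberField Pool.Agent.H10 Pool.Agent.H11 H78D
  H5SW H86G

namespace H86I

/-- Part (B), one layer. -/
theorem sel_lower_k4 {k N L : Type} [Field k] [NumberField k] [Field N] [NumberField N]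
    [Algebra k N] [IsGalois k N] [Field L] [NumberField L] [Algebra k L]
    {l : ℕ} (hl : l.Prime) (hl2 : l ≠ 2) {E : WeierstrassCurve k} (hΔ : E.Δ ≠ 0)
    {T₀ : (E.map (algebraMap k N)).toAffine.Point} (hT0 : T₀ ≠ 0) (hTl : l • T₀ = 0)
    (hst : ∀ g : N ≃ₐ[k] N, ∃ c : ℕ, gp (V := E) rfl g T₀ = c • T₀)
    (hodd : ∀ (φ : N →+* ℂ) (g : N ≃ₐ[k] N), (∀ x, φ (g x) = (starRingEnd ℂ) (φ x)) →
      gp (V := E) rfl g T₀ = -T₀)
    {D : ℤ} (hD0 : D ≠ 0) (hD : ∀ v : HeightOneSpectrum (𝓞 k),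
      (D : 𝓞 k) ∉ v.asIdeal → GoodVal (v.valuation k) E l)
    (S : Finset (HeightOneSpectrum (𝓞 k))) (hSl : ∀ v ∈ S, (l : 𝓞 k) ∈ v.asIdeal)
    (hS : ∀ 𝔫 : HeightOneSpectrum (𝓞 N), H73IS.below k 𝔫 ∈ S →
      ∃ x y hxy, T₀ = Affine.Point.some x y hxy ∧ MuAt l E x 𝔫)
    (hunr : UnrL l L)
    (hreal : ∀ ψ : L →+* ℂ,
      ComplexEmbedding.IsReal (ψ.comp (algebraMap k L)) → ComplexEmbedding.IsReal ψ) :
    (∏ v ∈ S, Ideal.absNorm v.asIdeal) ^ Module.finrank k L ≤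
      (l ^ InfinitePlace.nrComplexPlaces k) ^ Module.finrank k L *
        ((l ^ 3) ^ {w : HeightOneSpectrum (𝓞 L) | (D : 𝓞 L) ∈ w.asIdeal}.ncard *
          (l ^ 3 * H68IW.sel l L (E.map (algebraMap k L)))) := by
  have hΔL : (E.map (algebraMap k L)).Δ ≠ 0 := by
    rw [WeierstrassCurve.map_Δ]
    exact fun h => hΔ ((map_eq_zero _).1 h)
  obtain ⟨P, hPc, hP⟩ := exists_P hΔL hl.ne_zero
  obtain ⟨T', hTc, hT'⟩ := exists_T hΔL hl.ne_zero
  refine (growth_k4 hl hl2 hΔ hT0 hTl hst hodd hD0 hD S hSl hS hunr hreal P hP T' hT').trans ?_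
  refine Nat.mul_le_mul_left _ (Nat.mul_le_mul_left _ (Nat.mul_le_mul_left _ ?_))
  exact Nat.mul_le_mul hPc hTc

/-- Part (B): the lower bound in the tower. -/
theorem sel_lower4 (l p : ℕ) [Fact l.Prime] [Fact p.Prime] (hl2 : l ≠ 2) (hp2 : p ≠ 2)
    (hpl : p ≠ l) {k N : Type} [Field k] [NumberField k] [IsTotallyReal k] (hk : UnrL l k)
    [Field N] [NumberField N] [Algebra k N] [IsGalois k N] {E : WeierstrassCurve k}
    (hΔ : E.Δ ≠ 0)
    {T₀ : (E.map (algebraMap k N)).toAffine.Point} (hT0 : T₀ ≠ 0) (hTl : l • T₀ = 0)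
    (hst : ∀ g : N ≃ₐ[k] N, ∃ c : ℕ, gp (V := E) rfl g T₀ = c • T₀)
    (hodd : ∀ (φ : N →+* ℂ) (g : N ≃ₐ[k] N), (∀ x, φ (g x) = (starRingEnd ℂ) (φ x)) →
      gp (V := E) rfl g T₀ = -T₀)
    (S : Finset (HeightOneSpectrum (𝓞 k))) (hSl : ∀ v ∈ S, (l : 𝓞 k) ∈ v.asIdeal)
    (hS : ∀ 𝔫 : HeightOneSpectrum (𝓞 N), H73IS.below k 𝔫 ∈ S →
      ∃ x y hxy, T₀ = Affine.Point.some x y hxy ∧ MuAt l E x 𝔫) :
    ∃ C : ℕ, ∀ (L' L : Type) [Field L'] [NumberField L'] [Field L] [NumberField L] [Algebra k L]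
      (h : L' →+* L), IsR p L' → IntermediateField.adjoin k (Set.range h) = ⊤ →
      (∏ v ∈ S, Ideal.absNorm v.asIdeal) ^ Module.finrank k L ≤
        C * H68IW.sel l L (E.map (algebraMap k L)) := by
  have hl : l.Prime := Fact.out
  obtain ⟨C, hC⟩ := growth_genG4 l p hl2 hp2 hpl hk hΔ hT0 hTl hst hodd S hSl hS
  refine ⟨C, ?_⟩
  intro L' L _ _ _ _ _ hL hR hgen
  have hΔL : (E.map (algebraMap k L)).Δ ≠ 0 := by
    rw [WeierstrassCurve.map_Δ]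
    exact fun h => hΔ ((map_eq_zero _).1 h)
  obtain ⟨P, hPc, hP⟩ := exists_P hΔL hl.ne_zero
  obtain ⟨T', hTc, hT'⟩ := exists_T hΔL hl.ne_zero
  refine (hC L' L hL hR hgen P T' hP hT').trans ?_
  rw [IsTotallyReal.nrComplexPlaces_eq_zero, pow_zero, one_pow, one_mul]
  exact Nat.mul_le_mul_left _ (Nat.mul_le_mul hPc hTc)

end H86I
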