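import Pool.Agent.H68.IW.Nc
import Pool.Agent.H68.TM.Decl
import Pool.Agent.H86.IW.Dd
import Pool.Agent.H86.IW.Pa

/-!
The exact Iwasawa formula: the upper bound for the Selmer group (assembly, no row).
-/

set_option autoImplicit false
set_option linter.style.haveILetI false
open scoped Classical

open WeierstrassCurve IsDedekindDomain NumberField Pool.Agent.H10 Pool.Agent.H11 H78D H68SS H5SW
  H68TM H86G H68IM H68TL H68QS

namespace H86I

/-- Intermediate fields of layers are layers. -/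
theorem lay_down {p : ℕ} [Fact p.Prime] {k K L : Type} [Field k] [NumberField k] [Field K]
    [NumberField K] [Field L] [NumberField L] [Algebra k K] [Algebra k L] [Algebra K L]
    [IsScalarTower k K L] (h : H68IW.Lay p k L) : H68IW.Lay p k K := by
  obtain ⟨L', _, _, h, hR, hgen⟩ := h
  obtain ⟨K', _, _, _, ⟨C, hC⟩, -, -⟩ := decompose_l (K := K) h hR hgen
  haveI := hR.1
  haveI : FiniteDimensional K' L' := Module.Finite.of_restrictScalars_finite ℚ K' L'
  refine ⟨K', inferInstance, inferInstance, C.g, ⟨IsTotallyReal.of_algebra K' L', ?_⟩, ?_⟩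
  · obtain ⟨n, ⟨φ⟩⟩ := hR.2
    exact ⟨n, ⟨φ.comp (algebraMap K' L')⟩⟩
  · rw [eq_top_iff]
    intro x _
    have hx : x ∈ IntermediateField.adjoin ℚ (Set.range C.f ∪ Set.range C.g) := by
      rw [C.genK]; trivial
    let F : IntermediateField ℚ K :=
      { (IntermediateField.adjoin k (Set.range C.g)).toSubfield with
        algebraMap_mem' := fun y => by
          change algebraMap ℚ K y ∈ IntermediateField.adjoin k (Set.range C.g)
          rw [IsScalarTower.algebraMap_apply ℚ k K]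
          exact IntermediateField.algebraMap_mem _ _ }
    have hle : IntermediateField.adjoin ℚ (Set.range C.f ∪ Set.range C.g) ≤ F := by
      rw [IntermediateField.adjoin_le_iff]
      rintro _ (⟨y, rfl⟩ | ⟨y, rfl⟩)
      · change C.f y ∈ IntermediateField.adjoin k (Set.range C.g)
        rw [hC]
        exact IntermediateField.algebraMap_mem _ _
      · exact IntermediateField.subset_adjoin k _ ⟨y, rfl⟩
    exact hle hx

/-- The number of places above `l` in the layers. -/
theorem count_lay (l p : ℕ) [Fact p.Prime] (hp2 : p ≠ 2) (hl : l ≠ 0) (k : Type) [Field k]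
    [NumberField k] : ∃ s : ℕ, ∀ (L : Type) [Field L] [NumberField L] [Algebra k L],
      H68IW.Lay p k L → ∀ SL : Finset (HeightOneSpectrum (𝓞 L)),
        (∀ w ∈ SL, (l : 𝓞 L) ∈ w.asIdeal) → SL.card ≤ s := by
  have hl0 : (l : ℤ) ≠ 0 := by exact_mod_cast hl
  obtain ⟨s, hs⟩ := bad_count (p := p) hp2 hl0
  refine ⟨Module.finrank ℚ k * s, ?_⟩
  intro L _ _ _ hL SL hSL
  obtain ⟨L', _, _, h, hR, hgen⟩ := hL
  have hd := H86IK.finrank_gen h hgen
  letI := h.toAlgebra
  have h1 := H86IG.ncard_above (K := L') (L := L) hl0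
  have h2 : SL.card ≤ {w : HeightOneSpectrum (𝓞 L) | ((l : ℤ) : 𝓞 L) ∈ w.asIdeal}.ncard := by
    rw [← Set.ncard_coe_finset]
    refine Set.ncard_le_ncard ?_ (bad_fin (L := L) hl0)
    intro w hw
    rw [Set.mem_setOf_eq, Int.cast_natCast]
    exact hSL w hw
  exact h2.trans (h1.trans (Nat.mul_le_mul hd (hs L' hR)))

/-- The upper bound for the Selmer group. -/
theorem sel_upper {l p f : ℕ} [Fact l.Prime] [Fact p.Prime] (hl2 : l ≠ 2) (hp2 : p ≠ 2)
    (hlp : l ≠ p) (hf : f ≠ 0) {k : Type} [Field k] [NumberField k] (hk : LType l k)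
    (hkl : UnrL l k) {E : WeierstrassCurve k} (hE : E.Δ ≠ 0)
    {S : Finset (HeightOneSpectrum (𝓞 k))} (H : H68IW.IwPoint l f E S)
    (hS : ∀ v ∈ S, (l : 𝓞 k) ∈ v.asIdeal) :
    ∃ N s : ℕ, ∀ (K L : Type) [Field K] [NumberField K] [Field L] [NumberField L]
      [Algebra k K] [Algebra k L] [Algebra K L] [IsScalarTower k K L] [IsGalois K L],
      H68IW.Lay p k L → (∃ j : ℕ, Module.finrank K L = p ^ j) → p ^ N ∣ Module.finrank ℚ K →
      H68IW.sel l L (E.map (algebraMap k L)) ≤ H68IW.sel l K (E.map (algebraMap k K)) *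
        (l ^ s * (∏ v ∈ S, Ideal.absNorm v.asIdeal) ^ Module.finrank k L) := by
  have hl : l.Prime := Fact.out
  have hp : p.Prime := Fact.out
  obtain ⟨N, hN⟩ := H68IW.new_bound hl2 hp2 hlp hf hk hkl hE H
  obtain ⟨s, hs⟩ := count_lay l p hp2 hl.ne_zero k
  refine ⟨N, s, ?_⟩
  intro K L _ _ _ _ _ _ _ _ _ hL hj hN'
  obtain ⟨j, hj⟩ := hj
  have hV : (E.map (algebraMap k K)).map (algebraMap K L) = E.map (algebraMap k L) := by
    rw [WeierstrassCurve.map_map, ← IsScalarTower.algebraMap_eq]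
  obtain ⟨SL, hSL, hQ⟩ := places_above L S
  have hSL' : ∀ w ∈ SL, (l : 𝓞 L) ∈ w.asIdeal := by
    intro w hw
    have h1 := hS _ ((hSL w).1 hw)
    rw [H73IS.mem_below, map_natCast] at h1
    exact h1
  have hc := hs L hL SL hSL'
  rw [sel_split hV hl (by
    rw [hj]
    intro h
    exact hlp ((Nat.prime_dvd_prime_iff_eq hl hp).1 (hl.dvd_of_dvd_pow h)))]
  refine Nat.mul_le_mul_left _ ((hN K L hL ⟨j, hj⟩ hN' hV SL hSL).trans ?_)
  rw [Finset.prod_mul_distrib, Finset.prod_const]
  exact Nat.mul_le_mul (Nat.pow_le_pow_right hl.pos hc) hQ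

end H86I
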