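import Pool.Agent.H86.W6.Wu
import Pool.Agent.H68.IW.Df

/-!
Row Ra (about 140 lines): elements close to an `l`-th power give unramified Kummer extensions. Use the STATEMENTS of T4G/Rt (pow_val, cyc_val, Rt_root_one; general valuation subrings) and the definitions of UnrK (H78/TD/Df), Fx, InI (H68/TL/Dfc).

PROOF. Let `N, r, P, u` be as in UnrK (`r ^ l = d` in `N`, `P` lies over `w`, `u` in the inertia group of `P` and the identity on `F`). If `d = 0` then `r = 0`. `𝔑 : HeightOneSpectrum (𝓞 N)` with the ideal `P`, `A := (𝔑.valuation N).valuationSubring` (`A.valuation` and `𝔑.valuation N` are equivalent: Valuation.isEquiv_valuation_valuationSubring; it may be easier to work with `ν := 𝔑.valuation N` only and to copy the few lines of pow_val, cyc_val for `ν`: such copies are `Sh_pow_val`, `Sh_cyc_val` in T4G/Sh.lean, for any valuation). `u` maps `P` to `P`, so `ν (u y) = ν y` (see inI_val in T4G/Wj.lean for the same proof for `F ≃ₐ[L] F`; here `u :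 N ≃+* N`, e.g. Pool.Agent.H10.exists_conj or HeightOneSpectrum valuation under an automorphism).
 `F → N`: `ν (algebraMap F N y) = (w.valuation F y) ^ e` with `e ≠ 0` (HeightOneSpectrum.valuation_liesOver, see val_pow in T4G/Gk.lean), so with `z ≠ 0`, `X := d / z ^ l`, `r' := r / z`, `r' ^ l = X`: `ν (X - 1) < ν (l (ζ - 1)) = ν (ζ - 1) ^ l`. As in the proof of root_fix (T4G/Rt.lean): `X - 1 = ∏_i (r' - ζ^i)`, some `i` has `ν (r' - ζ^i) < ν (ζ - 1)`; `t := r' / ζ^i`, `t ^ l = X`, `ν (t - 1) < ν (ζ - 1)`; `u t = ζ^k t` for some `k < l`, `ν (u t - t) < ν (ζ - 1)`; `k ≠ 0` would give `ν (ζ^k - 1) = ν (ζ - 1)`, a contradiction (`ν t = 1`). So `u t = t` and `u r = r` (`u` fixes `z`, `ζ`, in the image of `F`).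
-/

set_option autoImplicit false
open scoped Classical

open WithZero WeierstrassCurve IsDedekindDomain NumberField Pool.Agent.H10 Pool.Agent.H11 H78D H86G

namespace H86I

private theorem Ra_root_one {Ω Γ : Type*} [Field Ω] [LinearOrderedCommGroupWithZero Γ]
    (v : Valuation Ω Γ) {z : Ω} {l : ℕ} (hl : l ≠ 0) (hz : z ^ l = 1) : v z = 1 := by
  have h1 : v z ^ l = 1 := by rw [← map_pow, hz, map_one]
  exact (pow_eq_one_iff.1 h1).resolve_right hl

private theorem Ra_pow_sub {Ω Γ : Type*} [Field Ω] [LinearOrderedCommGroupWithZero Γ]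
    (v : Valuation Ω Γ) {y : Ω} (hy : v y ≤ 1) (m : ℕ) :
    v (y ^ m - 1) ≤ v (y - 1) := by
  rw [← geom_sum_mul, map_mul]
  have h1 : v (∑ i ∈ Finset.range m, y ^ i) ≤ 1 := by
    refine Valuation.map_sum_le v fun i _ => ?_
    rw [map_pow]
    exact pow_le_one' hy i
  calc _ ≤ 1 * v (y - 1) := mul_le_mul_left h1 _
    _ = _ := one_mul _

private theorem Ra_cyc_val {Ω Γ : Type*} [Field Ω] [LinearOrderedCommGroupWithZero Γ]
    (v : Valuation Ω Γ) {z : Ω} {l : ℕ} (hl : l.Prime)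
    (hz : IsPrimitiveRoot z l) {k : ℕ} (hk : ¬ l ∣ k) :
    v (z ^ k - 1) = v (z - 1) := by
  have hzA : v z ≤ 1 := (Ra_root_one v hl.ne_zero hz.pow_eq_one).le
  apply le_antisymm (Ra_pow_sub v hzA k)
  have hc : Nat.Coprime k l := ((Nat.Prime.coprime_iff_not_dvd hl).2 hk).symm
  obtain ⟨m, -, hm⟩ := Nat.exists_mul_mod_eq_one_of_coprime hc hl.one_lt
  have h1 : (z ^ k) ^ m = z := by
    rw [← pow_mul, pow_eq_pow_mod (k * m) hz.pow_eq_one, hm, pow_one]
  have h2 : v (z ^ k) ≤ 1 := by rw [map_pow]; exact pow_le_one' hzA k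
  calc v (z - 1) = v ((z ^ k) ^ m - 1) := by rw [h1]
    _ ≤ _ := Ra_pow_sub v h2 m

private theorem Ra_pow_val {Ω Γ : Type*} [Field Ω] [LinearOrderedCommGroupWithZero Γ]
    (v : Valuation Ω Γ) {z : Ω} {l : ℕ} (hl : l.Prime)
    (hz : IsPrimitiveRoot z l) : v (l : Ω) = v (z - 1) ^ (l - 1) := by
  obtain ⟨n, rfl⟩ : ∃ n, l = n + 1 := ⟨l - 1, by have := hl.pos; omega⟩
  have h1 := hz.prod_one_sub_pow_eq_order
  have h2 : (((n + 1 : ℕ)) : Ω) = ∏ k ∈ Finset.range n, (1 - z ^ (k + 1)) := by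
    rw [h1]; push_cast; ring
  rw [h2, map_prod, Nat.add_sub_cancel]
  rw [Finset.prod_congr rfl (g := fun _ => v (z - 1)), Finset.prod_const,
    Finset.card_range]
  intro k hk
  rw [Finset.mem_range] at hk
  rw [Valuation.map_sub_swap]
  exact Ra_cyc_val v hl hz (fun hd => by have := Nat.le_of_dvd (Nat.succ_pos _) hd; omega)

/-- an automorphism preserving the valuation fixes the `l`-th roots of elements close to one -/
private theorem Ra_fix {Ω Γ : Type*} [Field Ω] [LinearOrderedCommGroupWithZero Γ]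
    (v : Valuation Ω Γ) {l : ℕ} (hl : l.Prime) {z : Ω} (hz : IsPrimitiveRoot z l)
    (u : Ω →+* Ω) (hu : ∀ x, v (u x) = v x) (huz : u z = z) {X t0 : Ω} (huX : u X = X)
    (ht0 : t0 ^ l = X) (hv : v (X - 1) < v ((l : Ω) * (z - 1))) : u t0 = t0 := by
  have : NeZero l := ⟨hl.ne_zero⟩
  have hzv : v z = 1 := Ra_root_one v hl.ne_zero hz.pow_eq_one
  have hz1 : v (z - 1) ≤ 1 := by
    refine (Valuation.map_sub v _ _).trans (max_le hzv.le ?_)
    rw [map_one]
  have hlv : v ((l : Ω) * (z - 1)) = v (z - 1) ^ l := by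
    rw [map_mul, Ra_pow_val v hl hz, ← pow_succ, Nat.sub_add_cancel hl.one_le]
  rw [hlv] at hv
  have hX0 : X ≠ 0 := by
    rintro rfl
    rw [zero_sub, Valuation.map_neg, map_one] at hv
    exact absurd hv (not_lt.2 (pow_le_one' hz1 l))
  have hprod : ∏ μ ∈ Polynomial.nthRootsFinset l (1 : Ω), (t0 - μ) = X - 1 := by
    have := hz.pow_sub_pow_eq_prod_sub_mul t0 1 hl.pos
    rw [one_pow, ht0] at this
    rw [this]
    exact Finset.prod_congr rfl fun μ _ => by rw [mul_one]
  obtain ⟨μ, hμ, hμv⟩ : ∃ μ ∈ Polynomial.nthRootsFinset l (1 : Ω),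
      v (t0 - μ) < v (z - 1) := by
    by_contra hcon
    push Not at hcon
    have h1 := Finset.pow_card_le_prod (Polynomial.nthRootsFinset l (1 : Ω))
      (fun μ => v (t0 - μ)) (v (z - 1)) hcon
    rw [hz.card_nthRootsFinset, ← map_prod, hprod] at h1
    exact absurd hv (not_lt.2 h1)
  have hμl : μ ^ l = 1 := (Polynomial.mem_nthRootsFinset hl.pos 1).1 hμ
  have hμ0 : μ ≠ 0 := by
    rintro rfl
    rw [zero_pow hl.ne_zero] at hμl
    exact zero_ne_one hμl
  have hμ1 : v μ = 1 := Ra_root_one v hl.ne_zero hμl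
  have huμ : u μ = μ := by
    obtain ⟨i, -, hi⟩ := hz.eq_pow_of_pow_eq_one hμl
    rw [← hi, map_pow, huz]
  obtain ⟨t, ht⟩ : ∃ t, t = t0 / μ := ⟨_, rfl⟩
  have htl : t ^ l = X := by rw [ht, div_pow, ht0, hμl, div_one]
  have htv : v (t - 1) < v (z - 1) := by
    have : t - 1 = (t0 - μ) / μ := by
      rw [ht]
      field_simp
    rw [this, map_div₀, hμ1, div_one]
    exact hμv
  have ht0' : t ≠ 0 := by
    intro h0
    rw [h0, zero_pow hl.ne_zero] at htl
    exact hX0 htl.symm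
  have ht1 : v t = 1 := by
    have := v.map_one_add_of_lt (x := t - 1) (htv.trans_le hz1)
    rwa [add_sub_cancel] at this
  have h1 : (u t / t) ^ l = 1 := by
    rw [div_pow, ← map_pow, htl, huX, div_self hX0]
  obtain ⟨k, hk, hkz⟩ := hz.eq_pow_of_pow_eq_one h1
  have h2 : u t - t = (z ^ k - 1) * t := by
    rw [hkz]; field_simp
  have h3 : v (u t - 1) < v (z - 1) := by
    have : u t - 1 = u (t - 1) := by rw [map_sub, map_one]
    rw [this, hu]
    exact htv
  have h4 : v (u t - t) < v (z - 1) := by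
    have : u t - t = (u t - 1) - (t - 1) := by ring
    rw [this]
    exact v.map_sub_lt h3 htv
  have h5 : u t = t := by
    rw [h2, map_mul, ht1, mul_one] at h4
    by_cases hk0 : k = 0
    · rw [hk0, pow_zero, sub_self, zero_mul, sub_eq_zero] at h2
      exact h2
    · exact absurd h4 (not_lt.2 (Ra_cyc_val v hl hz (fun hd => by
        have := Nat.le_of_dvd (Nat.pos_of_ne_zero hk0) hd; omega)).ge)
  have h6 : t0 = t * μ := by
    rw [ht, div_mul_cancel₀ _ hμ0]
  rw [h6, map_mul, h5, huμ]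

theorem unr_close {F : Type} [Field F] [NumberField F] {l : ℕ} (hl : l.Prime) {ζ : F}
    (hζ : IsPrimitiveRoot ζ l) {d : F} (w : HeightOneSpectrum (𝓞 F))
    (h : ∃ z : F, z ≠ 0 ∧
      w.valuation F (d / z ^ l - 1) < w.valuation F ((l : F) * (ζ - 1))) :
    UnrK l F d w := by
  obtain ⟨z, hz0, hv⟩ := h
  intro N _ _ _ _ r hr P hP hP0 hPw u hFx hIn
  obtain ⟨𝔑, h𝔑⟩ : ∃ 𝔑 : HeightOneSpectrum (𝓞 N), 𝔑.asIdeal = P := ⟨⟨P, hP, hP0⟩, rfl⟩
  have hlo : 𝔑.asIdeal.LiesOver w.asIdeal := ⟨by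
    ext x
    rw [Ideal.mem_comap, h𝔑]
    exact (hPw x).symm⟩
  obtain ⟨e, he0, he⟩ : ∃ e : ℕ, e ≠ 0 ∧
      ∀ x : F, 𝔑.valuation N (algebraMap F N x) = w.valuation F x ^ e :=
    ⟨w.asIdeal.ramificationIdx' 𝔑.asIdeal,
      Ideal.IsDedekindDomain.ramificationIdx'_ne_zero_of_liesOver 𝔑.asIdeal w.ne_bot,
      fun x => (HeightOneSpectrum.valuation_liesOver N w 𝔑 x).symm⟩
  let τ : N ≃ₐ[F] N := { u with commutes' := hFx }
  have hτ : ∀ x, τ x = u x := fun x => rfl
  have hI : H86G.InI 𝔑 τ := by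
    intro x
    obtain ⟨y, hy, hxy⟩ := hIn x
    have h1 : RingOfIntegers.mapRingEquiv (τ : N ≃+* N) x - x = y := by
      apply RingOfIntegers.ext
      change τ (x : N) - (x : N) = (y : N)
      rw [hτ, hxy]
      ring
    rw [h1, h𝔑]
    exact hy
  obtain ⟨hvt, -⟩ := inI_val hI
  have hz' : IsPrimitiveRoot (algebraMap F N ζ) l :=
    hζ.map_of_injective (algebraMap F N).injective
  have hzN : algebraMap F N z ≠ 0 := by
    rw [Ne, map_eq_zero]
    exact hz0
  have hX : (r / algebraMap F N z) ^ l = algebraMap F N (d / z ^ l) := by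
    rw [div_pow, hr, map_div₀, map_pow]
  have hvX : 𝔑.valuation N (algebraMap F N (d / z ^ l) - 1) <
      𝔑.valuation N ((l : N) * (algebraMap F N ζ - 1)) := by
    have e1 : algebraMap F N (d / z ^ l) - 1 = algebraMap F N (d / z ^ l - 1) := by
      rw [map_sub, map_one]
    have e2 : (l : N) * (algebraMap F N ζ - 1) = algebraMap F N ((l : F) * (ζ - 1)) := by
      rw [map_mul, map_natCast, map_sub, map_one]
    rw [e1, e2, he, he]
    exact pow_lt_pow_left₀ hv zero_le he0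
  have h1 := Ra_fix (𝔑.valuation N) hl hz' (u : N →+* N) (fun x => hvt x) (hFx ζ)
    (X := algebraMap F N (d / z ^ l)) (t0 := r / algebraMap F N z) (hFx _) hX hvX
  have h2 : r = r / algebraMap F N z * algebraMap F N z := by
    rw [div_mul_cancel₀ _ hzN]
  have h3 : u (r / algebraMap F N z) = r / algebraMap F N z := h1
  rw [h2, map_mul, h3, hFx z]

end H86I
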